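import Pool.Agent.P8H99.CT.Dens

/-!
# Counting subspaces disjoint from a given one
-/

set_option autoImplicit false

open Module Finset Pool.Agent.V11152.CS

namespace Pool.Agent.P8H99.CT

section
variable (F : Type) [Field F]

/-- counting a set of subspaces of dimension `k` through their bases -/
theorem basis_count [Fintype F] {V : Type} [AddCommGroup V] [Module F V] [Finite V] (k : ℕ)
    (P : Submodule F V → Prop) :
    Nat.card {W : Submodule F V // Module.finrank F W = k ∧ P W} *
      (∏ i ∈ range k, (Fintype.card F ^ k - Fintype.card F ^ i)) =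
      Nat.card {s : Fin k → V // LinearIndependent F s ∧ P (Submodule.span F (Set.range s))} := by
  classical
  have : Module.Finite F V := Module.Finite.of_finite
  have : Fintype V := Fintype.ofFinite V
  have : Finite (Submodule F V) := Finite.of_injective (fun W : Submodule F V => (W : Set V)) SetLike.coe_injective
  have : Fintype {W : Submodule F V // Module.finrank F W = k ∧ P W} := Fintype.ofFinite _
  have hcf : ∀ W : {W : Submodule F V // Module.finrank F W = k ∧ P W},
      Fintype.card {s : {s : Fin k → V // LinearIndependent F s ∧ P (Submodule.span F (Set.range s))} //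
        Submodule.span F (Set.range s.1) = W.1} =
        ∏ i ∈ range k, (Fintype.card F ^ k - Fintype.card F ^ i) := by
    intro W
    have h2 := card_linearIndependent (K := F) (V := W.1) (k := k) (by rw [W.2.1])
    rw [W.2.1, Fin.prod_univ_eq_prod_range (fun i => Fintype.card F ^ k - Fintype.card F ^ i)] at h2
    rw [← h2, ← Nat.card_eq_fintype_card]
    apply Nat.card_congr
    have hsp : ∀ t : {s : Fin k → W.1 // LinearIndependent F s},
        Submodule.span F (Set.range fun i => (t.1 i : V)) = W.1 := by
      intro t
      have hli : LinearIndependent F (fun i => (t.1 i : V)) :=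
        t.2.map' W.1.subtype (Submodule.ker_subtype _)
      apply Submodule.eq_of_le_of_finrank_eq
      · rw [Submodule.span_le]
        rintro _ ⟨i, rfl⟩
        exact (t.1 i).2
      · rw [W.2.1, finrank_span_eq_card hli, Fintype.card_fin]
    refine ⟨fun s => ⟨fun i => ⟨s.1.1 i, s.2.le (Submodule.subset_span ⟨i, rfl⟩)⟩, ?_⟩,
      fun t => ⟨⟨fun i => (t.1 i : V), ?_, ?_⟩, ?_⟩, ?_, ?_⟩
    · have := s.1.2.1
      exact LinearIndependent.of_comp W.1.subtype this
    · exact t.2.map' W.1.subtype (Submodule.ker_subtype _)
    · rw [hsp t]; exact W.2.2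
    · exact hsp t
    · intro s
      rfl
    · intro t
      rfl
  have h3 : Fintype.card {s : Fin k → V // LinearIndependent F s ∧ P (Submodule.span F (Set.range s))}
      = ∑ W : {W : Submodule F V // Module.finrank F W = k ∧ P W},
        Fintype.card {s : {s : Fin k → V // LinearIndependent F s ∧
          P (Submodule.span F (Set.range s))} // Submodule.span F (Set.range s.1) = W.1} := by
    rw [← Fintype.card_sigma]
    apply Fintype.card_congr
    refine ⟨fun s => ⟨⟨Submodule.span F (Set.range s.1),
      by rw [finrank_span_eq_card s.2.1, Fintype.card_fin], s.2.2⟩, ⟨s, rfl⟩⟩,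
      fun t => t.2.1, ?_, ?_⟩
    · intro s; rfl
    · rintro ⟨⟨W, hW⟩, ⟨s, hs⟩⟩
      simp only at hs
      subst hs
      rfl
  rw [Nat.card_eq_fintype_card (α := {s : Fin k → V // _}), h3, sum_congr rfl (fun W _ => hcf W),
    sum_const, smul_eq_mul, card_univ, Nat.card_eq_fintype_card]

end

variable {K V : Type} [Field K] [Finite K] [AddCommGroup V] [Module K V] [Module.Finite K V]

/-- tuples independent modulo `U` -/
lemma tuple_iff (U W : Submodule K V) (h : IsCompl U W) (k : ℕ) (s : Fin k → V) :
    (LinearIndependent K s ∧ Submodule.span K (Set.range s) ⊓ U = ⊥) ↔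
      LinearIndependent K (fun i => ((Submodule.prodEquivOfIsCompl U W h).symm (s i)).2) := by
  set p : V →ₗ[K] W := (LinearMap.snd K U W) ∘ₗ
    ((Submodule.prodEquivOfIsCompl U W h).symm : V →ₗ[K] (U × W)) with hp
  have hker : LinearMap.ker p = U := by
    ext x
    rw [LinearMap.mem_ker]
    show ((Submodule.prodEquivOfIsCompl U W h).symm x).2 = 0 ↔ x ∈ U
    exact Submodule.prodEquivOfIsCompl_symm_apply_snd_eq_zero _ _ h
  have hfun : (fun i => ((Submodule.prodEquivOfIsCompl U W h).symm (s i)).2) = p ∘ s := rfl
  rw [hfun]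
  constructor
  · rintro ⟨h1, h2⟩
    apply h1.map
    rw [hker, disjoint_iff]
    exact h2
  · intro h1
    refine ⟨LinearIndependent.of_comp p h1, ?_⟩
    rw [eq_bot_iff]
    rintro x ⟨hx1, hx2⟩
    rw [SetLike.mem_coe, Submodule.mem_span_range_iff_exists_fun] at hx1
    obtain ⟨c, hc⟩ := hx1
    have h3 : p x = 0 := by
      rw [← LinearMap.mem_ker, hker]
      exact hx2
    rw [← hc, map_sum] at h3
    simp only [map_smul] at h3
    have h4 := (Fintype.linearIndependent_iff.mp h1) c h3
    rw [Submodule.mem_bot, ← hc]
    apply Finset.sum_eq_zero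
    intro i _
    rw [h4 i, zero_smul]

/-- the number of `l`-dimensional subspaces disjoint from `U` -/
theorem disj_count (U : Submodule K V) (l : ℕ) (hl : finrank K U + l ≤ finrank K V) :
    ({C : Submodule K V | finrank K C = l ∧ C ⊓ U = ⊥}).ncard =
      Nat.card K ^ (finrank K U * l) * gauss (Nat.card K) (finrank K V - finrank K U) l := by
  classical
  have : Finite V := finV K V
  have : Fintype K := Fintype.ofFinite K
  have : Fintype V := Fintype.ofFinite V
  obtain ⟨W, hW⟩ := U.exists_isCompl
  have hWd := Submodule.finrank_add_eq_of_isCompl hW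
  have hWd' : finrank K W = finrank K V - finrank K U := by omega
  have h1 := basis_count K (V := V) l (fun C => C ⊓ U = ⊥)
  have h2 : ({C : Submodule K V | finrank K C = l ∧ C ⊓ U = ⊥}).ncard =
      Nat.card {C : Submodule K V // Module.finrank K C = l ∧ C ⊓ U = ⊥} := rfl
  have e : {s : Fin l → V // LinearIndependent K s ∧ Submodule.span K (Set.range s) ⊓ U = ⊥} ≃
      (Fin l → U) × {w : Fin l → W // LinearIndependent K w} := by
    refine ⟨fun s => ⟨fun i => ((Submodule.prodEquivOfIsCompl U W hW).symm (s.1 i)).1,
      ⟨fun i => ((Submodule.prodEquivOfIsCompl U W hW).symm (s.1 i)).2,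
        (tuple_iff U W hW l s.1).1 s.2⟩⟩,
      fun t => ⟨fun i => Submodule.prodEquivOfIsCompl U W hW (t.1 i, t.2.1 i),
        (tuple_iff U W hW l _).2 ?_⟩, ?_, ?_⟩
    · simp only [LinearEquiv.symm_apply_apply]
      exact t.2.2
    · intro s
      apply Subtype.ext
      funext i
      exact (Submodule.prodEquivOfIsCompl U W hW).apply_symm_apply (s.1 i)
    · intro t
      ext i <;> simp
  have h3 : Nat.card {s : Fin l → V // LinearIndependent K s ∧
      Submodule.span K (Set.range s) ⊓ U = ⊥} =
      Nat.card K ^ (finrank K U * l) *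
        ∏ i ∈ range l, (Nat.card K ^ (finrank K V - finrank K U) - Nat.card K ^ i) := by
    rw [Nat.card_congr e, Nat.card_prod]
    congr 1
    · rw [Nat.card_fun, Nat.card_fin, Nat.card_eq_fintype_card, Nat.card_eq_fintype_card,
        Module.card_eq_pow_finrank (K := K) (V := U), ← pow_mul]
    · have h4 := card_linearIndependent (K := K) (V := W) (k := l) (by omega)
      rw [h4, hWd', Fin.prod_univ_eq_prod_range
        (fun i => Fintype.card K ^ (finrank K V - finrank K U) - Fintype.card K ^ i),
        Nat.card_eq_fintype_card]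
  have h5 := gr_cardV K (V := W) (finrank K W) l rfl (by omega)
  have h6 : NS K W l = Nat.card {C : Submodule K W // Module.finrank K C = l} := rfl
  have h7 := NS_eq (K := K) (V := W) l (by omega)
  rw [← h6, h7, hWd'] at h5
  have hq : 1 < Nat.card K := Finite.one_lt_card
  have hpos : 0 < ∏ i ∈ range l, (Fintype.card K ^ l - Fintype.card K ^ i) := by
    apply Finset.prod_pos
    intro i hi
    rw [mem_range] at hi
    rw [Nat.card_eq_fintype_card] at hq
    exact Nat.sub_pos_of_lt (Nat.pow_lt_pow_right hq hi)
  rw [h3, ← h2] at h1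
  apply Nat.eq_of_mul_eq_mul_right hpos
  rw [h1, mul_assoc]
  congr 1
  rw [h5, Nat.card_eq_fintype_card]

end Pool.Agent.P8H99.CT
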