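import Pool.Agent.P8H99.CT.Gau

/-!
# Counting subspaces in small position with respect to a given one
-/

set_option autoImplicit false

open Module Finset Pool.Agent.V11152.CS

namespace Pool.Agent.P8H99.CT

variable {K V : Type} [Field K] [Finite K] [AddCommGroup V] [Module K V] [Module.Finite K V]

lemma NS_G (d : ℕ) (hd : d ≤ finrank K V) : (NS K V d : ℝ) = G K (finrank K V) d := by
  unfold G
  rw [NS_eq d hd]

lemma card_sub (U : Submodule K V) (a : ℕ) :
    (({C : Submodule K V | C ≤ U ∧ a ≤ finrank K C}).ncard : ℝ) ≤ T K (finrank K U) a := by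
  have h0 : Finite (Submodule K U) := finSub
  have h1 : ({C : Submodule K V | C ≤ U ∧ a ≤ finrank K C}).ncard ≤
      ({C : Submodule K U | a ≤ finrank K C}).ncard := by
    apply Set.ncard_le_ncard_of_injOn (fun C : Submodule K V => C.comap U.subtype)
    · intro C hC
      show a ≤ finrank K (C.comap U.subtype)
      rw [(Submodule.comapSubtypeEquivOfLe hC.1).finrank_eq]
      exact hC.2
    · intro C hC D hD h
      have h2 := congrArg (Submodule.map U.subtype) h
      simp only [Submodule.map_comap_subtype] at h2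
      rw [inf_eq_right.2 hC.1, inf_eq_right.2 hD.1] at h2
      exact h2
  rw [card_ge] at h1
  have h2 : (∑ d ∈ Icc a (finrank K U), (NS K U d : ℝ)) = T K (finrank K U) a := by
    unfold T
    apply Finset.sum_congr rfl
    intro d hd
    rw [mem_Icc] at hd
    exact NS_G d hd.2
  rw [← h2]
  exact_mod_cast h1

lemma card_sup (F : Submodule K V) (ρ : ℕ) (hρ : finrank K F ≤ ρ) (hρ2 : ρ ≤ finrank K V) :
    (({U : Submodule K V | F ≤ U ∧ finrank K U = ρ}).ncard : ℝ) ≤
      G K (finrank K V - finrank K F) (ρ - finrank K F) := by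
  obtain ⟨W, hW⟩ := F.exists_isCompl
  have hWd := Submodule.finrank_add_eq_of_isCompl hW
  have h0 : Finite (Submodule K W) := finSub
  have h1 : ({U : Submodule K V | F ≤ U ∧ finrank K U = ρ}).ncard ≤
      NS K W (ρ - finrank K F) := by
    unfold NS
    apply Set.ncard_le_ncard_of_injOn (fun U : Submodule K V => U.comap W.subtype)
    · intro U hU
      show finrank K (U.comap W.subtype) = ρ - finrank K F
      have h2 : U.comap W.subtype = (U ⊓ W).comap W.subtype := by
        rw [Submodule.comap_inf, Submodule.comap_subtype_self, inf_top_eq]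
      rw [h2, (Submodule.comapSubtypeEquivOfLe inf_le_right).finrank_eq]
      have h3 := Submodule.finrank_sup_add_finrank_inf_eq U W
      have h4 : U ⊔ W = ⊤ := by
        rw [eq_top_iff, ← hW.sup_eq_top]
        exact sup_le_sup_right hU.1 W
      rw [h4, finrank_top, hU.2] at h3
      omega
    · intro U hU U' hU' h
      have h2 := congrArg (Submodule.map W.subtype) h
      simp only [Submodule.map_comap_subtype] at h2
      have key : ∀ X : Submodule K V, F ≤ X → X = F ⊔ (W ⊓ X) := by
        intro X hX
        rw [← sup_inf_assoc_of_le W hX, hW.sup_eq_top, top_inf_eq]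
      rw [key U hU.1, key U' hU'.1, h2]
  have h2 := NS_G (K := K) (V := W) (ρ - finrank K F) (by omega)
  have h3 : finrank K W = finrank K V - finrank K F := by omega
  rw [h3] at h2
  rw [← h2]
  exact_mod_cast h1

/-- the number of subspaces of dimension at least `a` spanning with `F` at most `ρ` dimensions -/
lemma big_count (F : Submodule K V) (ρ a : ℕ) (hρ : finrank K F ≤ ρ) (hρ2 : ρ ≤ finrank K V) :
    (({C : Submodule K V | a ≤ finrank K C ∧ finrank K (C ⊔ F : Submodule K V) ≤ ρ}).ncard : ℝ) ≤
      G K (finrank K V - finrank K F) (ρ - finrank K F) * T K ρ a := by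
  classical
  have h0 : Finite (Submodule K V) := finSub
  have : Fintype (Submodule K V) := Fintype.ofFinite _
  set 𝒰 : Finset (Submodule K V) := univ.filter (fun U => F ≤ U ∧ finrank K U = ρ) with h𝒰
  have h1 : (univ.filter (fun C : Submodule K V => a ≤ finrank K C ∧
      finrank K (C ⊔ F : Submodule K V) ≤ ρ)) ⊆
      𝒰.biUnion (fun U => univ.filter (fun C => C ≤ U ∧ a ≤ finrank K C)) := by
    intro C hC
    simp only [mem_filter, mem_univ, true_and] at hC
    rw [mem_biUnion]
    obtain ⟨W, hW⟩ := (C ⊔ F).exists_isCompl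
    have hWd := Submodule.finrank_add_eq_of_isCompl hW
    obtain ⟨D, hD⟩ := exists_dim (K := K) (V := W) (ρ - finrank K (C ⊔ F : Submodule K V)) (by omega)
    set D' : Submodule K V := D.map W.subtype with hD'
    have hDd : finrank K D' = ρ - finrank K (C ⊔ F : Submodule K V) := by
      rw [hD', Submodule.finrank_map_subtype_eq, hD]
    have hdis : (C ⊔ F) ⊓ D' = ⊥ := by
      apply le_bot_iff.mp
      rw [← hW.inf_eq_bot]
      exact inf_le_inf_left _ (Submodule.map_subtype_le W D)
    have h2 := Submodule.finrank_sup_add_finrank_inf_eq (C ⊔ F) D'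
    rw [hdis, finrank_bot] at h2
    refine ⟨(C ⊔ F) ⊔ D', ?_, ?_⟩
    · simp only [h𝒰, mem_filter, mem_univ, true_and]
      exact ⟨le_trans le_sup_right le_sup_left, by omega⟩
    · simp only [mem_filter, mem_univ, true_and]
      exact ⟨le_trans le_sup_left le_sup_left, hC.1⟩
  have h2 : ({C : Submodule K V | a ≤ finrank K C ∧
      finrank K (C ⊔ F : Submodule K V) ≤ ρ}).ncard =
      (univ.filter (fun C : Submodule K V => a ≤ finrank K C ∧
        finrank K (C ⊔ F : Submodule K V) ≤ ρ)).card := by
    rw [Set.ncard_eq_toFinset_card']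
    congr 1
    ext C
    simp
  have h3 : ((𝒰.biUnion (fun U => univ.filter (fun C => C ≤ U ∧ a ≤ finrank K C))).card : ℝ) ≤
      ∑ U ∈ 𝒰, ((univ.filter (fun C : Submodule K V => C ≤ U ∧ a ≤ finrank K C)).card : ℝ) := by
    exact_mod_cast card_biUnion_le
  have h4 : ∀ U ∈ 𝒰, ((univ.filter (fun C : Submodule K V => C ≤ U ∧ a ≤ finrank K C)).card : ℝ)
      ≤ T K ρ a := by
    intro U hU
    simp only [h𝒰, mem_filter, mem_univ, true_and] at hU
    have h5 := card_sub U a
    rw [hU.2, Set.ncard_eq_toFinset_card'] at h5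
    convert h5 using 3
    ext C
    simp
  have h5 : (𝒰.card : ℝ) ≤ G K (finrank K V - finrank K F) (ρ - finrank K F) := by
    have h6 := card_sup F ρ hρ hρ2
    rw [Set.ncard_eq_toFinset_card'] at h6
    convert h6 using 3
    ext C
    simp [h𝒰]
  rw [h2]
  calc _ ≤ ((𝒰.biUnion (fun U => univ.filter (fun C => C ≤ U ∧ a ≤ finrank K C))).card : ℝ) := by
        exact_mod_cast Finset.card_le_card h1
    _ ≤ _ := h3
    _ ≤ ∑ _U ∈ 𝒰, T K ρ a := Finset.sum_le_sum h4
    _ = 𝒰.card * T K ρ a := by rw [Finset.sum_const, nsmul_eq_mul]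
    _ ≤ _ := mul_le_mul_of_nonneg_right h5 (T_nonneg K _ _)

/-- the members of a family in small position with respect to `F` avoid the subspaces disjoint
from `F` -/
lemma loss (A : Set (Submodule K V)) (F : Submodule K V) (ρ l : ℕ)
    (hA : ∀ C ∈ A, finrank K (C ⊔ F : Submodule K V) ≤ ρ) (hl : finrank K F + l = ρ + 1)
    (hρ : ρ + 1 ≤ finrank K V) :
    (cnt A l : ℝ) + Q K ^ (finrank K F * l) * G K (finrank K V - finrank K F) l ≤ NS K V l := by
  classical
  have h0 : Finite (Submodule K V) := finSub
  have h1 := disj_count F l (by omega)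
  have h2 : (({C : Submodule K V | finrank K C = l ∧ C ⊓ F = ⊥}).ncard : ℝ) =
      Q K ^ (finrank K F * l) * G K (finrank K V - finrank K F) l := by
    rw [h1]
    unfold Q G
    push_cast
    rfl
  rw [← h2]
  have h3 : cnt A l + ({C : Submodule K V | finrank K C = l ∧ C ⊓ F = ⊥}).ncard ≤ NS K V l := by
    unfold cnt NS
    rw [← Set.ncard_union_eq _ (Set.toFinite _) (Set.toFinite _)]
    · apply Set.ncard_le_ncard _ (Set.toFinite _)
      rintro C (hC | hC)
      · exact hC.2
      · exact hC.1
    · rw [Set.disjoint_left]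
      rintro C hC ⟨_, hC2⟩
      have h4 := hA C hC.1
      have h5 := Submodule.finrank_sup_add_finrank_inf_eq C F
      rw [hC2, finrank_bot, hC.2] at h5
      omega
  exact_mod_cast h3

end Pool.Agent.P8H99.CT
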