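import Pool.Agent.V11152.CSg

/-!
# Densities of families of subspaces in the layers
-/

set_option autoImplicit false

open Module Finset Pool.Agent.V11152.CS

namespace Pool.Agent.P8H99.CT

variable {K V : Type} [Field K] [Finite K] [AddCommGroup V] [Module K V] [Module.Finite K V]

/-- the density of the family `A` in the layer `d` -/
noncomputable def dn (A : Set (Submodule K V)) (d : ℕ) : ℝ := (cnt A d : ℝ) / NS K V d

lemma NSR_pos (d : ℕ) (hd : d ≤ finrank K V) : (0 : ℝ) < NS K V d := by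
  exact_mod_cast NS_pos d hd

open Classical in
lemma dn_eq_avg [Fintype (V ≃ₗ[K] V)] (A : Set (Submodule K V)) (U : Submodule K V) :
    dn A (finrank K U) = (∑ g : V ≃ₗ[K] V, if U.map (g : V →ₗ[K] V) ∈ A then (1 : ℝ) else 0) /
      Fintype.card (V ≃ₗ[K] V) := by
  have h1 := avg A U
  have h2 : (0 : ℝ) < NS K V (finrank K U) := NSR_pos _ (Submodule.finrank_le U)
  have h3 : (0 : ℝ) < Fintype.card (V ≃ₗ[K] V) := by
    exact_mod_cast Fintype.card_pos_iff.2 ⟨LinearEquiv.refl K V⟩
  have h4 := congrArg (Nat.cast : ℕ → ℝ) h1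
  push_cast at h4
  unfold dn
  rw [div_eq_div_iff h2.ne' h3.ne']
  linarith

/-- two families without a disjoint pair in the layers `i`, `j` -/
lemma dn_pair (A B : Set (Submodule K V)) (i j : ℕ) (hij : i + j ≤ finrank K V)
    (h : ∀ U ∈ A, ∀ W ∈ B, finrank K U = i → finrank K W = j → U ⊓ W ≠ ⊥) :
    dn A i + dn B j ≤ 1 := by
  classical
  have : Finite (V ≃ₗ[K] V) := finG
  have : Fintype (V ≃ₗ[K] V) := Fintype.ofFinite _
  obtain ⟨U, hU⟩ := exists_dim (K := K) (V := V) i (by omega)
  obtain ⟨C, hC⟩ := U.exists_isCompl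
  have hCd := Submodule.finrank_add_eq_of_isCompl hC
  obtain ⟨W', hW'⟩ := exists_dim (K := K) (V := C) j (by omega)
  set W : Submodule K V := W'.map C.subtype with hW
  have hWd : finrank K W = j := by
    rw [hW, Submodule.finrank_map_subtype_eq, hW']
  have hUW : U ⊓ W = ⊥ := by
    apply le_bot_iff.mp
    rw [← hC.inf_eq_bot]
    exact inf_le_inf_left U (Submodule.map_subtype_le C W')
  have h1 := dn_eq_avg A U
  have h2 := dn_eq_avg B W
  rw [hU] at h1
  rw [hWd] at h2
  rw [h1, h2, ← add_div, ← Finset.sum_add_distrib]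
  have h3 : (0 : ℝ) < Fintype.card (V ≃ₗ[K] V) := by
    exact_mod_cast Fintype.card_pos_iff.2 ⟨LinearEquiv.refl K V⟩
  rw [div_le_one h3]
  calc _ ≤ ∑ _g : V ≃ₗ[K] V, (1 : ℝ) := by
        apply Finset.sum_le_sum
        intro g _
        by_cases ha : U.map (g : V →ₗ[K] V) ∈ A
        · by_cases hb : W.map (g : V →ₗ[K] V) ∈ B
          · exfalso
            refine h _ ha _ hb ?_ ?_ ?_
            · rw [LinearEquiv.finrank_map_eq g U, hU]
            · rw [LinearEquiv.finrank_map_eq g W, hWd]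
            · rw [← Submodule.map_inf _ g.injective, hUW, Submodule.map_bot]
          · simp [ha, hb]
        · split_ifs <;> simp
    _ = _ := by simp

/-- the densities of a family closed under subspaces decrease -/
lemma dn_anti (B : Set (Submodule K V)) (hB : ∀ U ∈ B, ∀ W, W ≤ U → W ∈ B) (i j : ℕ)
    (hij : i ≤ j) (hj : j ≤ finrank K V) : dn B j ≤ dn B i := by
  classical
  have : Finite (V ≃ₗ[K] V) := finG
  have : Fintype (V ≃ₗ[K] V) := Fintype.ofFinite _
  obtain ⟨W, hW⟩ := exists_dim (K := K) (V := V) j hj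
  obtain ⟨U', hU'⟩ := exists_dim (K := K) (V := W) i (by omega)
  set U : Submodule K V := U'.map W.subtype with hU
  have hUd : finrank K U = i := by
    rw [hU, Submodule.finrank_map_subtype_eq, hU']
  have hUW : U ≤ W := Submodule.map_subtype_le W U'
  have h1 := dn_eq_avg B U
  have h2 := dn_eq_avg B W
  rw [hUd] at h1
  rw [hW] at h2
  rw [h1, h2]
  apply div_le_div_of_nonneg_right _ (Nat.cast_nonneg _)
  apply Finset.sum_le_sum
  intro g _
  by_cases ha : W.map (g : V →ₗ[K] V) ∈ B
  · have hb : U.map (g : V →ₗ[K] V) ∈ B := hB _ ha _ (Submodule.map_mono hUW)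
    simp [ha, hb]
  · split_ifs <;> simp

lemma dn_nonneg (A : Set (Submodule K V)) (d : ℕ) : 0 ≤ dn A d := by
  unfold dn; positivity

lemma cnt_le_NS (A : Set (Submodule K V)) (d : ℕ) : cnt A d ≤ NS K V d := by
  have : Finite (Submodule K V) := finSub
  unfold cnt NS
  apply Set.ncard_le_ncard _ (Set.toFinite _)
  intro U hU
  exact hU.2

lemma dn_le_one (A : Set (Submodule K V)) (d : ℕ) : dn A d ≤ 1 := by
  unfold dn
  apply div_le_one_of_le₀ _ (Nat.cast_nonneg _)
  exact_mod_cast cnt_le_NS A d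

lemma cnt_mono {A B : Set (Submodule K V)} (h : A ⊆ B) (d : ℕ) : cnt A d ≤ cnt B d := by
  have : Finite (Submodule K V) := finSub
  unfold cnt
  apply Set.ncard_le_ncard _ (Set.toFinite _)
  intro U hU
  exact ⟨h hU.1, hU.2⟩

lemma cnt_eq (A : Set (Submodule K V)) (d : ℕ) (hd : d ≤ finrank K V) :
    (cnt A d : ℝ) = NS K V d * dn A d := by
  unfold dn
  rw [mul_div_cancel₀ _ (NSR_pos d hd).ne']

end Pool.Agent.P8H99.CT
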