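import Pool.Agent.P8H99.CT.Red

/-!
# The maximum for all parameters
-/

set_option autoImplicit false

open Module Finset Pool.Agent.V11152.CS

namespace Pool.Agent.P8H99.CT

section arith
variable (K : Type) [Field K] [Finite K]

/-- the number of `d`-dimensional subspaces of a hyperplane -/
lemma G_hyper (n d : ℕ) (hd : d + 1 ≤ n) :
    G K n d * (Q K ^ (n - d) - 1) = G K (n - 1) d * (Q K ^ n - 1) := by
  induction d with
  | zero => rw [G_zero, G_zero, Nat.sub_zero]
  | succ d ih =>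
    have h1 := G_rec K n d (by omega)
    have h2 := G_rec K (n - 1) d (by omega)
    have h3 := ih (by omega)
    have hq := Q_two K
    have h4 : 0 < Q K ^ (d + 1) - 1 := sub_pos.2 (one_lt_pow₀ (by linarith) (by omega))
    have e1 : n - 1 - d = n - (d + 1) := by omega
    rw [e1] at h2
    have h5 : (G K n (d + 1) * (Q K ^ (n - (d + 1)) - 1)) * (Q K ^ (d + 1) - 1) =
        (G K (n - 1) (d + 1) * (Q K ^ n - 1)) * (Q K ^ (d + 1) - 1) := by
      calc _ = (G K n (d + 1) * (Q K ^ (d + 1) - 1)) * (Q K ^ (n - (d + 1)) - 1) := by ring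
        _ = (G K n d * (Q K ^ (n - d) - 1)) * (Q K ^ (n - (d + 1)) - 1) := by rw [h1]
        _ = (G K (n - 1) d * (Q K ^ n - 1)) * (Q K ^ (n - (d + 1)) - 1) := by rw [h3]
        _ = (G K (n - 1) d * (Q K ^ (n - (d + 1)) - 1)) * (Q K ^ n - 1) := by ring
        _ = (G K (n - 1) (d + 1) * (Q K ^ (d + 1) - 1)) * (Q K ^ n - 1) := by rw [h2]
        _ = _ := by ring
    exact mul_right_cancel₀ h4.ne' h5

/-- a sum of Gaussian binomials of codimensions -/
lemma G_sum_symm (n a b : ℕ) (hab : a + b = n + 1) :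
    ∑ d ∈ Icc a n, G K n d = ∑ j ∈ range b, G K n j := by
  apply Finset.sum_nbij' (fun d => n - d) (fun j => n - j)
  · intro d hd
    rw [mem_Icc] at hd
    rw [mem_range]
    omega
  · intro j hj
    rw [mem_range] at hj
    rw [mem_Icc]
    omega
  · intro d hd
    rw [mem_Icc] at hd
    omega
  · intro j hj
    rw [mem_range] at hj
    omega
  · intro d hd
    rw [mem_Icc] at hd
    exact G_symm K n d (n - d) (by omega)

end arith

variable {K V : Type} [Field K] [Finite K] [AddCommGroup V] [Module K V] [Module.Finite K V]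

/-- the upper bound for `t ≥ 2`, real form -/
theorem upper2 (hE : S_E) (m t n : ℕ) (hV : finrank K V = n) (hm : 2 ≤ m) (ht : 2 ≤ t)
    (htn : t ≤ n) (F : Fin m → Set (Submodule K V)) (hne : ∀ i, (F i).Nonempty)
    (hF : ∀ i j, i ≠ j → ∀ U ∈ F i, ∀ W ∈ F j, t ≤ finrank K (U ⊓ W : Submodule K V)) :
    ∑ i, ((F i).ncard : ℝ) ≤ max (∑ d ∈ Icc t n, G K n d + ((m : ℝ) - 1))
      (m * ∑ d ∈ Icc ((n + t + 1) / 2) n, G K n d +
        if Even (n + t) then 0 else
          max (G K n ((n + t) / 2)) (m * G K (n - 1) ((n + t) / 2))) := by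
  obtain ⟨F', hne', hF', hcard⟩ := dual F hne hF
  have hsum : ∑ i, ((F i).ncard : ℝ) = ∑ i, ((F' i).ncard : ℝ) :=
    Finset.sum_congr rfl fun i _ => by rw [hcard i]
  rw [hsum]
  obtain ⟨r, hr⟩ : ∃ r, r = n - t := ⟨_, rfl⟩
  rw [hV, ← hr] at hF'
  obtain ⟨A, B, hP, hle⟩ := red hm (by omega) F' hne' hF'
  refine hle.trans ?_
  have hmR : (2 : ℝ) ≤ m := by exact_mod_cast hm
  have hNS : ∀ N, N ≤ n + 1 → ∑ j ∈ range N, (NS K V j : ℝ) = ∑ j ∈ range N, G K n j := by
    intro N hN
    apply Finset.sum_congr rfl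
    intro j hj
    rw [mem_range] at hj
    rw [NS_G j (by omega), hV]
  by_cases he : Even (n + t)
  · obtain ⟨k, hk⟩ : ∃ k, r = 2 * k := by
      obtain ⟨x, hx⟩ := he
      exact ⟨x - t, by omega⟩
    subst hk
    rw [if_pos he, add_zero]
    have h1 := hP.even (by omega) ((m : ℝ) - 1) (by linarith)
    rw [hNS _ (by omega), hNS _ (by omega)] at h1
    rw [G_sum_symm K n t (2 * k + 1) (by omega),
      G_sum_symm K n ((n + t + 1) / 2) (k + 1) (by omega)]
    refine h1.trans (le_of_eq ?_)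
    congr 2
    ring
  · have he2 := he
    rw [Nat.not_even_iff_odd] at he2
    obtain ⟨k, hk1, hk⟩ : ∃ k, 1 ≤ k ∧ r = 2 * k - 1 := by
      obtain ⟨x, hx⟩ := he2
      exact ⟨x + 1 - t, by omega, by omega⟩
    subst hk
    rw [if_neg he]
    have h1 := hP.odd hE hk1 (by omega) ((m : ℝ) - 1) (by linarith)
    rw [hNS _ (by omega), hNS _ (by omega), hV] at h1
    rw [G_sum_symm K n t (2 * k) (by omega),
      G_sum_symm K n ((n + t + 1) / 2) k (by omega)]
    have e1 : (NS K V k : ℝ) = G K n ((n + t) / 2) := by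
      rw [NS_G k (by omega), hV]
      exact G_symm K n _ _ (by omega)
    have hq := Q_two K
    have h2 := G_hyper K n ((n + t) / 2) (by omega)
    have e2 : n - (n + t) / 2 = k := by omega
    rw [e2] at h2
    have h3 : 0 < Q K ^ n - 1 := sub_pos.2 (one_lt_pow₀ (by linarith) (by omega))
    rw [e1, h2, mul_div_cancel_right₀ _ h3.ne'] at h1
    refine h1.trans (le_of_eq ?_)
    congr 1
    rw [← max_add_add_left]
    congr 1 <;> ring

end Pool.Agent.P8H99.CT
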