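import Pool.Agent.P8H99.CT.Cnt

/-!
# Estimates for Gaussian binomial coefficients
-/

set_option autoImplicit false

open Module Finset Pool.Agent.V11152.CS

namespace Pool.Agent.P8H99.CT

variable (K : Type) [Field K] [Finite K]

/-- the Gaussian binomial coefficient for the field `K` -/
noncomputable def G (m j : ℕ) : ℝ := (gauss (Nat.card K) m j : ℝ)

/-- the number of elements of `K` -/
noncomputable def Q : ℝ := (Nat.card K : ℝ)

lemma Q_two : (2 : ℝ) ≤ Q K := by
  have : 1 < Nat.card K := Finite.one_lt_card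
  unfold Q
  exact_mod_cast this

lemma G_eq (m j : ℕ) (h : j ≤ m) : G K m j = (NS K (Fin m → K) j : ℝ) := by
  have h1 : finrank K (Fin m → K) = m := by simp
  unfold G
  rw [NS_eq (K := K) (V := Fin m → K) j (by omega), h1]

lemma G_pos (m j : ℕ) (h : j ≤ m) : 0 < G K m j := by
  rw [G_eq K m j h]
  exact NSR_pos j (by simpa using h)

lemma G_nonneg (m j : ℕ) : 0 ≤ G K m j := Nat.cast_nonneg _

lemma G_rec (m j : ℕ) (h : j + 1 ≤ m) :
    G K m (j + 1) * (Q K ^ (j + 1) - 1) = G K m j * (Q K ^ (m - j) - 1) := by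
  rw [G_eq K m _ h, G_eq K m j (by omega)]
  have h1 : finrank K (Fin m → K) = m := by simp
  have h2 := NS_rec (K := K) (V := Fin m → K) j (by omega)
  rw [h1] at h2
  exact h2

lemma G_symm (m i j : ℕ) (h : i + j = m) : G K m i = G K m j := by
  rw [G_eq K m i (by omega), G_eq K m j (by omega), NS_symm (K := K) (V := Fin m → K) i j (by simpa using h)]

lemma G_zero (m : ℕ) : G K m 0 = 1 := by
  unfold G gauss
  simp

/-- the upper bound with the sharper constant used in the induction -/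
lemma G_upper_aux (m j : ℕ) (h : j + 1 ≤ m) :
    G K m (j + 1) * (1 / 4 + (1 / 2) ^ (j + 2)) ≤ Q K ^ ((j + 1) * (m - (j + 1))) := by
  have hq := Q_two K
  set q := Q K with hqd
  induction j with
  | zero =>
    have h1 := G_rec K m 0 h
    rw [← hqd, G_zero] at h1
    simp only [zero_add, pow_one, Nat.sub_zero, one_mul] at h1 ⊢
    have h2 : q ^ m = q * q ^ (m - 1) := by
      rw [← pow_succ']
      congr 1
      omega
    have h3 : 0 < G K m 1 := G_pos K m 1 h
    rw [h2] at h1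
    have h4 : G K m 1 * (q / 2) ≤ q * q ^ (m - 1) := by
      calc G K m 1 * (q / 2) ≤ G K m 1 * (q - 1) := by
            apply mul_le_mul_of_nonneg_left _ h3.le
            linarith
        _ ≤ q * q ^ (m - 1) := by rw [h1]; linarith
    have h5 : q * (G K m 1 * (1 / 4 + (1 / 2) ^ 2)) ≤ q * q ^ (m - 1) := by
      calc q * (G K m 1 * (1 / 4 + (1 / 2) ^ 2)) = G K m 1 * (q / 2) := by ring
        _ ≤ _ := h4
    exact le_of_mul_le_mul_left h5 (by linarith)
  | succ j ih =>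
    have h0 := ih (by omega)
    have h1 := G_rec K m (j + 1) h
    rw [← hqd] at h1
    have hm : m - (j + 1) = (m - (j + 1 + 1)) + 1 := by omega
    obtain ⟨a, ha⟩ : ∃ a, a = m - (j + 1 + 1) := ⟨_, rfl⟩
    rw [← ha] at hm ⊢
    rw [hm] at h0 h1
    have hqa : (1 : ℝ) ≤ q ^ (a + 1) := one_le_pow₀ (by linarith)
    have hX : 0 < G K m (j + 1 + 1) := G_pos K m _ h
    -- target
    have e1 : q ^ ((j + 1) * (a + 1)) * q ^ (a + 1) = q ^ (j + 1 + 1) * q ^ ((j + 1 + 1) * a) := by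
      rw [← pow_add, ← pow_add]
      congr 1
      ring
    have hκ : (0 : ℝ) < 1 / 4 + (1 / 2) ^ (j + 2) := by positivity
    have h2 : G K m (j + 1 + 1) * (q ^ (j + 1 + 1) - 1) * (1 / 4 + (1 / 2) ^ (j + 2)) ≤
        q ^ (j + 1 + 1) * q ^ ((j + 1 + 1) * a) := by
      rw [h1, ← e1]
      calc G K m (j + 1) * (q ^ (a + 1) - 1) * (1 / 4 + (1 / 2) ^ (j + 2)) =
            (G K m (j + 1) * (1 / 4 + (1 / 2) ^ (j + 2))) * (q ^ (a + 1) - 1) := by ring
        _ ≤ q ^ ((j + 1) * (a + 1)) * (q ^ (a + 1) - 1) := by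
            apply mul_le_mul_of_nonneg_right h0
            linarith
        _ ≤ q ^ ((j + 1) * (a + 1)) * q ^ (a + 1) := by
            apply mul_le_mul_of_nonneg_left _ (by positivity)
            linarith
    -- comparison of the constants
    have h3 : (1 / 4 + (1 / 2 : ℝ) ^ (j + 1 + 2)) * q ^ (j + 1 + 1) ≤
        (1 / 4 + (1 / 2) ^ (j + 2)) * (q ^ (j + 1 + 1) - 1) := by
      have h4 : (2 : ℝ) ^ (j + 2) ≤ q ^ (j + 2) := pow_le_pow_left₀ (by norm_num) hq _
      have h5 : (1 / 2 : ℝ) ^ (j + 1 + 2) = (1 / 2) ^ (j + 2) * (1 / 2) := by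
        rw [← pow_succ]
      have h6 : (1 / 2 : ℝ) ^ (j + 2) * 2 ^ (j + 2) = 1 := by
        rw [← mul_pow]; norm_num
      have h7 : (1 / 2 : ℝ) ^ (j + 2) ≤ 1 / 4 := by
        rw [pow_add]
        have : (1 / 2 : ℝ) ^ j ≤ 1 := pow_le_one₀ (by norm_num) (by norm_num)
        nlinarith
      rw [show j + 1 + 1 = j + 2 by ring, h5]
      set x := (1 / 2 : ℝ) ^ (j + 2)
      have hx : 0 < x := by positivity
      set y := q ^ (j + 2)
      have h8 : 1 ≤ x * y := by
        rw [← h6]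
        exact mul_le_mul_of_nonneg_left h4 hx.le
      nlinarith
    have h4 : q ^ (j + 1 + 1) * (G K m (j + 1 + 1) * (1 / 4 + (1 / 2) ^ (j + 1 + 2))) ≤
        q ^ (j + 1 + 1) * q ^ ((j + 1 + 1) * a) := by
      refine le_trans ?_ h2
      calc q ^ (j + 1 + 1) * (G K m (j + 1 + 1) * (1 / 4 + (1 / 2) ^ (j + 1 + 2))) =
          G K m (j + 1 + 1) * ((1 / 4 + (1 / 2 : ℝ) ^ (j + 1 + 2)) * q ^ (j + 1 + 1)) := by ring
        _ ≤ G K m (j + 1 + 1) * ((1 / 4 + (1 / 2) ^ (j + 2)) * (q ^ (j + 1 + 1) - 1)) :=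
          mul_le_mul_of_nonneg_left h3 hX.le
        _ = _ := by ring
    exact le_of_mul_le_mul_left h4 (by positivity)

lemma G_upper (m j : ℕ) (h : j ≤ m) : G K m j ≤ 4 * Q K ^ (j * (m - j)) := by
  have hq := Q_two K
  rcases Nat.eq_zero_or_pos j with rfl | hj
  · rw [G_zero]; simp
  · obtain ⟨i, rfl⟩ : ∃ i, j = i + 1 := ⟨j - 1, by omega⟩
    have h1 := G_upper_aux K m i h
    have h2 : 0 < G K m (i + 1) := G_pos K m _ h
    have h3 : (0 : ℝ) < (1 / 2) ^ (i + 2) := by positivity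
    nlinarith

lemma G_lower (m j : ℕ) (h : j ≤ m) : Q K ^ (j * (m - j)) ≤ G K m j := by
  have hf : finrank K (Fin m → K) = m := by simp
  obtain ⟨U, hU⟩ := exists_dim (K := K) (V := Fin m → K) (m - j) (by omega)
  have h1 := disj_count U j (by omega)
  rw [hU, hf] at h1
  have h2 : m - (m - j) = j := by omega
  have h3 : (gauss (Nat.card K) j j : ℝ) = 1 := by
    have h4 := G_eq K j j le_rfl
    have h5 := NS_top (K := K) (V := Fin j → K)
    have h6 : finrank K (Fin j → K) = j := by simp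
    rw [h6] at h5
    rw [h5] at h4
    simpa [G] using h4
  have h3' : gauss (Nat.card K) j j = 1 := by exact_mod_cast h3
  rw [h2, h3', mul_one] at h1
  have : Finite (Submodule K (Fin m → K)) := finSub
  have h4 : ({C : Submodule K (Fin m → K) | finrank K C = j ∧ C ⊓ U = ⊥}).ncard ≤
      NS K (Fin m → K) j := by
    unfold NS
    apply Set.ncard_le_ncard _ (Set.toFinite _)
    intro C hC
    exact hC.1
  rw [h1] at h4
  rw [G_eq K m j h, mul_comm j]
  unfold Q
  exact_mod_cast h4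

/-- the number of subspaces of dimension at least `a` of a space of dimension `r` -/
noncomputable def T (r a : ℕ) : ℝ := ∑ j ∈ Icc a r, G K r j

lemma T_nonneg (r a : ℕ) : 0 ≤ T K r a := Finset.sum_nonneg fun _ _ => G_nonneg K _ _

lemma geo_bound (x : ℝ) (hx0 : 0 ≤ x) (hx1 : x < 1) (k : ℕ) : ∑ i ∈ range k, x ^ i ≤ 1 / (1 - x) := by
  rw [le_div_iff₀ (by linarith)]
  have h1 := geom_sum_mul x k
  have h2 : 0 ≤ x ^ k := pow_nonneg hx0 k
  nlinarith

lemma T_even (k : ℕ) : T K (2 * k) (k + 1) ≤ 3 * Q K ^ (k * k) := by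
  have hq := Q_two K
  set q := Q K with hqd
  have hq0 : 0 < q := by linarith
  unfold T
  have h1 : ∑ j ∈ Icc (k + 1) (2 * k), G K (2 * k) j = ∑ i ∈ range k, G K (2 * k) (k + 1 + i) := by
    rw [← Finset.Ico_succ_right_eq_Icc]
    rw [Finset.sum_Ico_eq_sum_range]
    congr 1
    congr 1
    simp only [Order.succ_eq_add_one]
    omega
  rw [h1]
  have h2 : ∀ i ∈ range k, G K (2 * k) (k + 1 + i) ≤ 2 * q ^ (k * k) * (1 / 8) ^ i := by
    intro i hi
    rw [mem_range] at hi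
    refine (G_upper K (2 * k) (k + 1 + i) (by omega)).trans ?_
    rw [← hqd]
    obtain ⟨a, ha⟩ : ∃ a, k = i + 1 + a := ⟨k - (i + 1), by omega⟩
    have h3 : 2 * k - (k + 1 + i) = a := by omega
    rw [h3]
    have h4 : k * k = (k + 1 + i) * a + (i + 1) * (i + 1) := by
      rw [ha]; ring
    have h5 : (i + 1) * (i + 1) = 3 * i + 1 + (i * i - i) := by
      have : i ≤ i * i := Nat.le_mul_self i
      have h6 : (i + 1) * (i + 1) = i * i + 2 * i + 1 := by ring
      omega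
    rw [h4, h5, pow_add, pow_add, pow_add, pow_mul q 3 i, pow_one]
    have h6 : (1 : ℝ) ≤ q ^ (i * i - i) := one_le_pow₀ (by linarith)
    have h7 : (8 : ℝ) ^ i ≤ (q ^ 3) ^ i := by
      apply pow_le_pow_left₀ (by norm_num)
      have : (2 : ℝ) ^ 3 ≤ q ^ 3 := pow_le_pow_left₀ (by norm_num) hq _
      linarith
    have h8 : (8 : ℝ) ^ i * (1 / 8) ^ i = 1 := by
      rw [← mul_pow]; norm_num
    have h9 : (0 : ℝ) < (1 / 8) ^ i := by positivity
    have h10 : (0 : ℝ) < q ^ ((k + 1 + i) * a) := by positivity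
    have h11 : 1 ≤ (q ^ 3) ^ i * (1 / 8) ^ i := by
      have h14 := mul_le_mul_of_nonneg_right h7 h9.le
      rw [h8] at h14
      exact h14
    have h12 : 2 ≤ (q ^ 3) ^ i * q * q ^ (i * i - i) * (1 / 8) ^ i := by
      calc (2 : ℝ) ≤ q := hq
        _ = 1 * (q * 1) := by ring
        _ ≤ ((q ^ 3) ^ i * (1 / 8) ^ i) * (q * q ^ (i * i - i)) := by
            apply mul_le_mul h11 _ (by positivity) (by positivity)
            exact mul_le_mul_of_nonneg_left h6 hq0.le
        _ = _ := by ring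
    calc 4 * q ^ ((k + 1 + i) * a) = 2 * q ^ ((k + 1 + i) * a) * 2 := by ring
      _ ≤ 2 * q ^ ((k + 1 + i) * a) * ((q ^ 3) ^ i * q * q ^ (i * i - i) * (1 / 8) ^ i) := by
          apply mul_le_mul_of_nonneg_left h12 (by positivity)
      _ = _ := by ring
  refine (Finset.sum_le_sum h2).trans ?_
  rw [← Finset.mul_sum]
  have h3 := geo_bound (1 / 8) (by norm_num) (by norm_num) k
  have h4 : (0 : ℝ) < q ^ (k * k) := by positivity
  have h5 : (1 : ℝ) / (1 - 1 / 8) = 8 / 7 := by norm_num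
  rw [h5] at h3
  nlinarith

lemma T_odd (k : ℕ) (hk : 1 ≤ k) : T K (2 * k - 1) (k + 1) ≤ 2 * Q K ^ (k * k - k) := by
  have hq := Q_two K
  set q := Q K with hqd
  have hq0 : 0 < q := by linarith
  unfold T
  have h1 : ∑ j ∈ Icc (k + 1) (2 * k - 1), G K (2 * k - 1) j =
      ∑ i ∈ range (k - 1), G K (2 * k - 1) (k + 1 + i) := by
    rw [← Finset.Ico_succ_right_eq_Icc]
    rw [Finset.sum_Ico_eq_sum_range]
    congr 1
    congr 1
    simp only [Order.succ_eq_add_one]
    omega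
  rw [h1]
  have h2 : ∀ i ∈ range (k - 1), G K (2 * k - 1) (k + 1 + i) ≤ q ^ (k * k - k) * (1 / 4) ^ i := by
    intro i hi
    rw [mem_range] at hi
    refine (G_upper K (2 * k - 1) (k + 1 + i) (by omega)).trans ?_
    rw [← hqd]
    obtain ⟨a, ha⟩ : ∃ a, k = i + 2 + a := ⟨k - (i + 2), by omega⟩
    have h3 : 2 * k - 1 - (k + 1 + i) = a := by omega
    rw [h3]
    have h4 : k * k - k = (k + 1 + i) * a + (i + 1) * (i + 2) := by
      have h5 : k * k = (k + 1 + i) * a + (i + 1) * (i + 2) + k := by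
        rw [ha]; ring
      omega
    have h5 : (i + 1) * (i + 2) = 2 * i + 2 + (i * i + i) := by ring
    rw [h4, h5, pow_add, pow_add, pow_add, pow_mul q 2 i]
    have h6 : (1 : ℝ) ≤ q ^ (i * i + i) := one_le_pow₀ (by linarith)
    have h7 : (4 : ℝ) ^ i ≤ (q ^ 2) ^ i := by
      apply pow_le_pow_left₀ (by norm_num)
      nlinarith
    have h8 : (4 : ℝ) ^ i * (1 / 4) ^ i = 1 := by
      rw [← mul_pow]; norm_num
    have h9 : (0 : ℝ) < (1 / 4) ^ i := by positivity
    have h10 : (0 : ℝ) < q ^ ((k + 1 + i) * a) := by positivity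
    have h11 : 1 ≤ (q ^ 2) ^ i * (1 / 4) ^ i := by
      have h14 := mul_le_mul_of_nonneg_right h7 h9.le
      rw [h8] at h14
      exact h14
    have h13 : (4 : ℝ) ≤ q ^ 2 := by nlinarith
    have h12 : 4 ≤ (q ^ 2) ^ i * q ^ 2 * q ^ (i * i + i) * (1 / 4) ^ i := by
      calc (4 : ℝ) ≤ q ^ 2 := h13
        _ = 1 * (q ^ 2 * 1) := by ring
        _ ≤ ((q ^ 2) ^ i * (1 / 4) ^ i) * (q ^ 2 * q ^ (i * i + i)) := by
            apply mul_le_mul h11 _ (by positivity) (by positivity)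
            exact mul_le_mul_of_nonneg_left h6 (by positivity)
        _ = _ := by ring
    calc 4 * q ^ ((k + 1 + i) * a) = q ^ ((k + 1 + i) * a) * 4 := by ring
      _ ≤ q ^ ((k + 1 + i) * a) * ((q ^ 2) ^ i * q ^ 2 * q ^ (i * i + i) * (1 / 4) ^ i) := by
          apply mul_le_mul_of_nonneg_left h12 (by positivity)
      _ = _ := by ring
  refine (Finset.sum_le_sum h2).trans ?_
  rw [← Finset.mul_sum]
  have h3 := geo_bound (1 / 4) (by norm_num) (by norm_num) (k - 1)
  have h4 : (0 : ℝ) < q ^ (k * k - k) := by positivity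
  have h5 : (1 : ℝ) / (1 - 1 / 4) = 4 / 3 := by norm_num
  rw [h5] at h3
  nlinarith

/-- the inequality for even `n + t` -/
lemma ineq_E (n k : ℕ) (hk : 1 ≤ k) (hn : 2 * k + 2 ≤ n) :
    G K (n - (k + 1)) (k - 1) * T K (2 * k) (k + 1) ≤
      Q K ^ ((k + 1) * k) * G K (n - (k + 1)) k := by
  have hq := Q_two K
  obtain ⟨j, rfl⟩ : ∃ j, k = j + 1 := ⟨k - 1, by omega⟩
  have h1 := G_rec K (n - (j + 1 + 1)) j (by omega)
  have h2 := T_even K (j + 1)
  have hj : j + 1 - 1 = j := by omega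
  rw [hj]
  set q := Q K with hqd
  have h3 : n - (j + 1 + 1) - j = (n - 2 * (j + 1) - 2) + 2 := by omega
  rw [h3] at h1
  set A := G K (n - (j + 1 + 1)) j with hA
  set B := G K (n - (j + 1 + 1)) (j + 1) with hB
  have hA0 : 0 ≤ A := G_nonneg K _ _
  have hT0 := T_nonneg K (2 * (j + 1)) (j + 1 + 1)
  have h4 : (1 : ℝ) < q ^ (j + 1) := one_lt_pow₀ (by linarith) (by omega)
  have h5 : (4 : ℝ) ≤ q ^ (n - 2 * (j + 1) - 2 + 2) := by
    rw [pow_add]
    have h6 : (1 : ℝ) ≤ q ^ (n - 2 * (j + 1) - 2) := one_le_pow₀ (by linarith)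
    have h7 : (4 : ℝ) ≤ q ^ 2 := by nlinarith
    nlinarith
  have h6 : (A * T K (2 * (j + 1)) (j + 1 + 1)) * (q ^ (j + 1) - 1) ≤
      (q ^ ((j + 1 + 1) * (j + 1)) * B) * (q ^ (j + 1) - 1) := by
    calc (A * T K (2 * (j + 1)) (j + 1 + 1)) * (q ^ (j + 1) - 1) ≤
          (A * (3 * q ^ ((j + 1) * (j + 1)))) * q ^ (j + 1) := by
            apply mul_le_mul
            · exact mul_le_mul_of_nonneg_left h2 hA0
            · linarith
            · linarith
            · positivity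
      _ = A * (q ^ ((j + 1 + 1) * (j + 1)) * 3) := by
            rw [show (j + 1 + 1) * (j + 1) = (j + 1) * (j + 1) + (j + 1) by ring, pow_add]
            ring
      _ ≤ A * (q ^ ((j + 1 + 1) * (j + 1)) * (q ^ (n - 2 * (j + 1) - 2 + 2) - 1)) := by
            apply mul_le_mul_of_nonneg_left _ hA0
            apply mul_le_mul_of_nonneg_left _ (by positivity)
            linarith
      _ = q ^ ((j + 1 + 1) * (j + 1)) * (A * (q ^ (n - 2 * (j + 1) - 2 + 2) - 1)) := by ring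
      _ = q ^ ((j + 1 + 1) * (j + 1)) * (B * (q ^ (j + 1) - 1)) := by rw [h1]
      _ = _ := by ring
  exact le_of_mul_le_mul_right h6 (by linarith)

/-- the first inequality for odd `n + t` -/
lemma ineq_O (n k : ℕ) (hk : 2 ≤ k) (hn : 2 * k + 1 ≤ n) :
    G K (n - (k + 1)) (k - 2) * T K (2 * k - 1) (k + 1) ≤
      Q K ^ ((k + 1) * (k - 1)) * G K (n - (k + 1)) (k - 1) := by
  have hq := Q_two K
  obtain ⟨j, rfl⟩ : ∃ j, k = j + 2 := ⟨k - 2, by omega⟩
  have h1 := G_rec K (n - (j + 2 + 1)) j (by omega)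
  have h2 := T_odd K (j + 2) (by omega)
  have hj : j + 2 - 2 = j := by omega
  have hj1 : j + 2 - 1 = j + 1 := by omega
  rw [hj, hj1]
  set q := Q K with hqd
  have h3 : n - (j + 2 + 1) - j = (n - 2 * (j + 2) - 1) + 2 := by omega
  rw [h3] at h1
  set A := G K (n - (j + 2 + 1)) j with hA
  set B := G K (n - (j + 2 + 1)) (j + 1) with hB
  have hA0 : 0 ≤ A := G_nonneg K _ _
  have hT0 := T_nonneg K (2 * (j + 2) - 1) (j + 2 + 1)
  have h4 : (1 : ℝ) < q ^ (j + 1) := one_lt_pow₀ (by linarith) (by omega)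
  have h5 : (4 : ℝ) ≤ q ^ (n - 2 * (j + 2) - 1 + 2) := by
    rw [pow_add]
    have h6 : (1 : ℝ) ≤ q ^ (n - 2 * (j + 2) - 1) := one_le_pow₀ (by linarith)
    have h7 : (4 : ℝ) ≤ q ^ 2 := by nlinarith
    nlinarith
  have h6 : (A * T K (2 * (j + 2) - 1) (j + 2 + 1)) * (q ^ (j + 1) - 1) ≤
      (q ^ ((j + 2 + 1) * (j + 1)) * B) * (q ^ (j + 1) - 1) := by
    have he : (j + 2) * (j + 2) - (j + 2) + (j + 1) = (j + 2 + 1) * (j + 1) := by
      have : (j + 2) * (j + 2) = (j + 2 + 1) * (j + 1) + 1 := by ring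
      have h8 : 1 ≤ (j + 2 + 1) * (j + 1) := Nat.one_le_iff_ne_zero.mpr (by positivity)
      have h9 : j + 2 ≤ (j + 2) * (j + 2) := Nat.le_mul_self _
      omega
    calc (A * T K (2 * (j + 2) - 1) (j + 2 + 1)) * (q ^ (j + 1) - 1) ≤
          (A * (2 * q ^ ((j + 2) * (j + 2) - (j + 2)))) * q ^ (j + 1) := by
            apply mul_le_mul
            · exact mul_le_mul_of_nonneg_left h2 hA0
            · linarith
            · linarith
            · positivity
      _ = A * (q ^ ((j + 2 + 1) * (j + 1)) * 2) := by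
            rw [← he, pow_add]
            ring
      _ ≤ A * (q ^ ((j + 2 + 1) * (j + 1)) * (q ^ (n - 2 * (j + 2) - 1 + 2) - 1)) := by
            apply mul_le_mul_of_nonneg_left _ hA0
            apply mul_le_mul_of_nonneg_left _ (by positivity)
            linarith
      _ = q ^ ((j + 2 + 1) * (j + 1)) * (A * (q ^ (n - 2 * (j + 2) - 1 + 2) - 1)) := by ring
      _ = q ^ ((j + 2 + 1) * (j + 1)) * (B * (q ^ (j + 1) - 1)) := by rw [h1]
      _ = _ := by ring
  exact le_of_mul_le_mul_right h6 (by linarith)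

/-- the second inequality for odd `n + t` -/
lemma ineq_O2 (n k : ℕ) (hk : 2 ≤ k) (hn : 2 * k + 1 ≤ n) :
    G K (n - k) (k - 1) * T K (2 * k - 1) (k + 1) ≤
      Q K ^ (n - k) * (Q K ^ ((k + 1) * (k - 1)) * G K (n - (k + 1)) (k - 1)) := by
  have hq := Q_two K
  obtain ⟨j, rfl⟩ : ∃ j, k = j + 2 := ⟨k - 2, by omega⟩
  obtain ⟨a, rfl⟩ : ∃ a, n = 2 * (j + 2) + 1 + a := ⟨n - (2 * (j + 2) + 1), by omega⟩
  have h1 := G_upper K (2 * (j + 2) + 1 + a - (j + 2)) (j + 2 - 1) (by omega)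
  have h2 := T_odd K (j + 2) (by omega)
  have h3 := G_lower K (2 * (j + 2) + 1 + a - (j + 2 + 1)) (j + 2 - 1) (by omega)
  set q := Q K with hqd
  have e1 : j + 2 - 1 = j + 1 := by omega
  rw [e1] at h1 h3 ⊢
  have e2 : 2 * (j + 2) + 1 + a - (j + 2) - (j + 1) = a + 2 := by omega
  have e3 : 2 * (j + 2) + 1 + a - (j + 2 + 1) - (j + 1) = a + 1 := by omega
  rw [e2] at h1
  rw [e3] at h3
  have e4 : 2 * (j + 2) + 1 + a - (j + 2) = (j + a) + 3 := by omega
  rw [e4] at h1 ⊢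
  have e5 : (j + 2) * (j + 2) - (j + 2) + (j + 1) = (j + 2 + 1) * (j + 1) := by
    have : (j + 2) * (j + 2) = (j + 2 + 1) * (j + 1) + 1 := by ring
    have h9 : j + 2 ≤ (j + 2) * (j + 2) := Nat.le_mul_self _
    omega
  calc G K (j + a + 3) (j + 1) * T K (2 * (j + 2) - 1) (j + 2 + 1) ≤
        (4 * q ^ ((j + 1) * (a + 2))) * (2 * q ^ ((j + 2) * (j + 2) - (j + 2))) :=
        mul_le_mul h1 h2 (T_nonneg K _ _) (by positivity)
    _ = 8 * (q ^ ((j + 2) * (j + 2) - (j + 2) + (j + 1)) * q ^ ((j + 1) * (a + 1))) := by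
        rw [show (j + 1) * (a + 2) = (j + 1) * (a + 1) + (j + 1) by ring, pow_add, pow_add]
        ring
    _ ≤ q ^ (j + a + 3) * (q ^ ((j + 2 + 1) * (j + 1)) * q ^ ((j + 1) * (a + 1))) := by
        rw [e5]
        apply mul_le_mul_of_nonneg_right _ (by positivity)
        have h5 : (1 : ℝ) ≤ q ^ (j + a) := one_le_pow₀ (by linarith)
        have h6 : (2 : ℝ) ^ 3 ≤ q ^ 3 := pow_le_pow_left₀ (by norm_num) hq _
        rw [pow_add]
        nlinarith
    _ ≤ _ := by
        apply mul_le_mul_of_nonneg_left _ (by positivity)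
        apply mul_le_mul_of_nonneg_left h3 (by positivity)

end Pool.Agent.P8H99.CT
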