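import Pool.Agent.P8H99.CT.Cou

/-!
# The linear programming part
-/

set_option autoImplicit false

open Module Finset Pool.Agent.V11152.CS

namespace Pool.Agent.P8H99.CT

/-- a linear functional of a decreasing sequence is maximal at a constant sequence if its
coefficients change sign only once, from negative to positive -/
lemma lp (N : ℕ) (x y u : ℕ → ℝ) (c : ℝ) (hy : ∀ j < N, 0 < y j) (hc : 0 ≤ c)
    (hr : ∀ j, j + 1 < N → x (j + 1) * y j ≤ x j * y (j + 1))
    (hu : ∀ i j, i ≤ j → j < N → u j ≤ u i) (h0 : ∀ j < N, 0 ≤ u j) (h1 : ∀ j < N, u j ≤ 1) :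
    ∑ j ∈ range N, (x j * (1 - u j) + c * (y j * u j)) ≤
      max (∑ j ∈ range N, x j) (c * ∑ j ∈ range N, y j) := by
  classical
  have e1 : ∑ j ∈ range N, (x j * (1 - u j) + c * (y j * u j)) =
      ∑ j ∈ range N, x j + ∑ j ∈ range N, u j * (c * y j - x j) := by
    rw [← Finset.sum_add_distrib]
    apply Finset.sum_congr rfl
    intro j _
    ring
  rw [e1]
  by_cases hex : ∃ j, j < N ∧ 0 < c * y j - x j
  · obtain ⟨h2, h3⟩ := Nat.find_spec hex
    set j0 := Nat.find hex with hj0
    have hlow : ∀ j, j < j0 → j < N → c * y j - x j ≤ 0 := by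
      intro j hj hjN
      by_contra hcon
      exact Nat.find_min hex hj ⟨hjN, by linarith⟩
    have hhigh : ∀ j, j0 ≤ j → j < N → 0 < c * y j - x j := by
      intro j hj
      induction j, hj using Nat.le_induction with
      | base => intro _; exact h3
      | succ j hj ih =>
        intro hjN
        have h4 := ih (by omega)
        have h5 := hr j hjN
        have h6 := hy j (by omega)
        have h7 := hy (j + 1) hjN
        have h8 : x (j + 1) * y j < c * y (j + 1) * y j := by
          calc x (j + 1) * y j ≤ x j * y (j + 1) := h5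
            _ < c * y j * y (j + 1) := by
              apply mul_lt_mul_of_pos_right _ h7
              linarith
            _ = _ := by ring
        have h9 := lt_of_mul_lt_mul_right h8 h6.le
        linarith
    have h4 : ∑ j ∈ range N, u j * (c * y j - x j) ≤ ∑ j ∈ range N, u j0 * (c * y j - x j) := by
      apply Finset.sum_le_sum
      intro j hj
      rw [mem_range] at hj
      rcases lt_or_ge j j0 with h5 | h5
      · exact mul_le_mul_of_nonpos_right (hu j j0 h5.le h2) (hlow j h5 hj)
      · exact mul_le_mul_of_nonneg_right (hu j0 j h5 hj) (hhigh j h5 hj).le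
    rw [← Finset.mul_sum] at h4
    have h5 : ∑ j ∈ range N, (c * y j - x j) = c * ∑ j ∈ range N, y j - ∑ j ∈ range N, x j := by
      rw [Finset.sum_sub_distrib, Finset.mul_sum]
    rw [h5] at h4
    have h6 := h0 j0 h2
    have h7 := h1 j0 h2
    rcases le_total (c * ∑ j ∈ range N, y j) (∑ j ∈ range N, x j) with h8 | h8
    · rw [max_eq_left h8]
      nlinarith
    · rw [max_eq_right h8]
      nlinarith
  · push Not at hex
    refine le_trans ?_ (le_max_left _ _)
    have h2 : ∑ j ∈ range N, u j * (c * y j - x j) ≤ 0 := by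
      apply Finset.sum_nonpos
      intro j hj
      rw [mem_range] at hj
      exact mul_nonpos_of_nonneg_of_nonpos (h0 j hj) (hex j hj)
    linarith

lemma split_even (k : ℕ) (f : ℕ → ℝ) : ∑ j ∈ range (2 * k + 1), f j =
    f 0 + ∑ j ∈ range k, f (j + 1) + ∑ j ∈ range k, f (2 * k - j) := by
  rw [show 2 * k + 1 = (k + 1) + k by ring, Finset.sum_range_add, Finset.sum_range_succ',
    ← Finset.sum_range_reflect (fun j => f (k + 1 + j)) k]
  have h1 : ∑ j ∈ range k, f (k + 1 + (k - 1 - j)) = ∑ j ∈ range k, f (2 * k - j) := by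
    apply Finset.sum_congr rfl
    intro j hj
    rw [mem_range] at hj
    congr 1
    omega
  rw [h1]
  ring

lemma split_odd (k : ℕ) (f : ℕ → ℝ) : ∑ j ∈ range (2 * k + 2), f j =
    f 0 + ∑ j ∈ range k, f (j + 1) + f (k + 1) + ∑ j ∈ range k, f (2 * k + 1 - j) := by
  rw [show 2 * k + 2 = (k + 2) + k by ring, Finset.sum_range_add, Finset.sum_range_succ,
    Finset.sum_range_succ', ← Finset.sum_range_reflect (fun j => f (k + 2 + j)) k]
  have h1 : ∑ j ∈ range k, f (k + 2 + (k - 1 - j)) = ∑ j ∈ range k, f (2 * k + 1 - j) := by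
    apply Finset.sum_congr rfl
    intro j hj
    rw [mem_range] at hj
    congr 1
    omega
  rw [h1]
  ring

variable {K V : Type} [Field K] [Finite K] [AddCommGroup V] [Module K V] [Module.Finite K V]

/-- two families `B ⊆ A` closed under subspaces, members of `A` and `B` together span at most `r`
dimensions -/
structure Pr (A B : Set (Submodule K V)) (r : ℕ) : Prop where
  sub : B ⊆ A
  dA : ∀ U ∈ A, ∀ W, W ≤ U → W ∈ A
  dB : ∀ U ∈ B, ∀ W, W ≤ U → W ∈ B
  bot : ⊥ ∈ B
  cr : ∀ U ∈ A, ∀ W ∈ B, finrank K (U ⊔ W : Submodule K V) ≤ r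
  hr : r + 1 ≤ finrank K V

variable {A B : Set (Submodule K V)} {r : ℕ}

lemma Pr.leA (h : Pr A B r) : ∀ U ∈ A, finrank K U ≤ r := by
  intro U hU
  have := h.cr U hU ⊥ h.bot
  rwa [sup_bot_eq] at this

/-- the number of members, if all dimensions are at most `s` -/
lemma ncard_range (A : Set (Submodule K V)) (s : ℕ) (hs : s ≤ finrank K V)
    (h : ∀ U ∈ A, finrank K U ≤ s) : (A.ncard : ℝ) = ∑ j ∈ range (s + 1), (cnt A j : ℝ) := by
  rw [ncard_eq, Nat.cast_sum]
  symm
  apply Finset.sum_subset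
  · intro j hj
    rw [mem_range] at hj ⊢
    omega
  · intro j _ hj2
    rw [mem_range] at hj2
    have h1 : cnt A j = 0 := by
      unfold cnt
      have : {U : Submodule K V | U ∈ A ∧ finrank K U = j} = ∅ := by
        ext U
        simp only [Set.mem_ofPred_eq, Set.mem_empty_iff_false, iff_false, not_and]
        intro h2 h3
        have := h U h2
        omega
      rw [this, Set.ncard_empty]
    rw [h1, Nat.cast_zero]

lemma cntR_le (A : Set (Submodule K V)) (d : ℕ) : (cnt A d : ℝ) ≤ NS K V d := by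
  exact_mod_cast cnt_le_NS A d

lemma Pr.lpv (h : Pr A B r) (k : ℕ) (hk : 2 * k ≤ r) (c : ℝ) (hc : 0 ≤ c) :
    ∑ j ∈ range k, ((cnt A (r - j) : ℝ) + c * cnt B (j + 1)) ≤
      max (∑ j ∈ range k, (NS K V (r - j) : ℝ)) (c * ∑ j ∈ range k, (NS K V (j + 1) : ℝ)) := by
  have hr := h.hr
  have h1 := lp k (fun j => (NS K V (r - j) : ℝ)) (fun j => (NS K V (j + 1) : ℝ))
    (fun j => dn B (j + 1)) c (fun j hj => NSR_pos _ (by omega)) hc (by
      intro j hj
      have h2 := NS_cmp (K := K) (V := V) (finrank K V - r - 1) (j + 1) (by omega)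
      have e1 : NS K V (r - (j + 1)) = NS K V (finrank K V - r - 1 + (j + 1 + 1)) :=
        NS_symm _ _ (by omega)
      have e2 : NS K V (r - j) = NS K V (finrank K V - r - 1 + (j + 1)) :=
        NS_symm _ _ (by omega)
      rw [e1, e2]
      exact h2) (by
      intro i j hij hj
      exact dn_anti B h.dB (i + 1) (j + 1) (by omega) (by omega))
      (fun j _ => dn_nonneg B _) (fun j _ => dn_le_one B _)
  refine le_trans ?_ h1
  apply Finset.sum_le_sum
  intro j hj
  rw [mem_range] at hj
  have h2 := dn_pair A B (r - j) (j + 1) (by omega) (by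
    intro U hU W hW hUd hWd hdis
    have h3 := Submodule.finrank_sup_add_finrank_inf_eq U W
    rw [hdis, finrank_bot, hUd, hWd] at h3
    have h4 := h.cr U hU W hW
    omega)
  have e1 := cnt_eq A (r - j) (by omega)
  have e2 := cnt_eq B (j + 1) (by omega)
  rw [e1, e2]
  have h3 := NSR_pos (K := K) (V := V) (r - j) (by omega)
  have h4 : (NS K V (r - j) : ℝ) * dn A (r - j) ≤ NS K V (r - j) * (1 - dn B (j + 1)) :=
    mul_le_mul_of_nonneg_left (by linarith) h3.le
  linarith

lemma NS_zero : NS K V 0 = 1 := by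
  have h := NS_symm (K := K) (V := V) 0 (finrank K V) (by omega)
  rw [h, NS_top]

/-- a member of dimension `s` below a larger one -/
lemma exists_below (B : Set (Submodule K V)) (hB : ∀ U ∈ B, ∀ W, W ≤ U → W ∈ B) (s : ℕ)
    (h : ∃ F ∈ B, s ≤ finrank K F) : ∃ F ∈ B, finrank K F = s := by
  obtain ⟨F, hF, hs⟩ := h
  obtain ⟨D, hD⟩ := exists_dim (K := K) (V := F) s hs
  refine ⟨D.map F.subtype, hB F hF _ (Submodule.map_subtype_le F D), ?_⟩
  rw [Submodule.finrank_map_subtype_eq, hD]

/-- members of dimension at least `s` -/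
lemma ncard_split (A : Set (Submodule K V)) (s : ℕ) (hs : s ≤ finrank K V) :
    (A.ncard : ℝ) = ∑ j ∈ range s, (cnt A j : ℝ) +
      (({U : Submodule K V | U ∈ A ∧ s ≤ finrank K U}).ncard : ℝ) := by
  have h0 : Finite (Submodule K V) := finSub
  have h1 : A = {U : Submodule K V | U ∈ A ∧ ¬ s ≤ finrank K U} ∪
      {U : Submodule K V | U ∈ A ∧ s ≤ finrank K U} := by
    ext U
    simp only [Set.mem_union, Set.mem_ofPred_eq]
    tauto
  have h2 : A.ncard = ({U : Submodule K V | U ∈ A ∧ ¬ s ≤ finrank K U}).ncard +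
      ({U : Submodule K V | U ∈ A ∧ s ≤ finrank K U}).ncard := by
    conv_lhs => rw [h1]
    apply Set.ncard_union_eq _ (Set.toFinite _) (Set.toFinite _)
    rw [Set.disjoint_left]
    rintro U ⟨_, h3⟩ ⟨_, h4⟩
    exact h3 h4
  rw [h2, Nat.cast_add]
  congr 1
  rw [ncard_eq, Nat.cast_sum]
  have h3 : ∀ j, cnt {U : Submodule K V | U ∈ A ∧ ¬ s ≤ finrank K U} j =
      if j < s then cnt A j else 0 := by
    intro j
    unfold cnt
    split_ifs with hj
    · congr 1
      ext U
      simp only [Set.mem_ofPred_eq]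
      constructor
      · rintro ⟨⟨h4, _⟩, h5⟩; exact ⟨h4, h5⟩
      · rintro ⟨h4, h5⟩; exact ⟨⟨h4, by omega⟩, h5⟩
    · have : {U : Submodule K V | U ∈ {U : Submodule K V | U ∈ A ∧ ¬ s ≤ finrank K U} ∧
          finrank K U = j} = ∅ := by
        ext U
        simp only [Set.mem_ofPred_eq, Set.mem_empty_iff_false, iff_false, not_and]
        rintro ⟨_, h4⟩ h5
        omega
      rw [this, Set.ncard_empty]
  symm
  apply Finset.sum_subset_zero_on_sdiff
  · intro j hj
    rw [mem_range] at hj ⊢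
    omega
  · intro j hj
    rw [mem_sdiff, mem_range, mem_range] at hj
    rw [h3 j, if_neg hj.2, Nat.cast_zero]
  · intro j hj
    rw [mem_range] at hj
    rw [h3 j, if_pos hj]

/-- the bound for even `r` -/
theorem Pr.even {k : ℕ} (h : Pr A B (2 * k)) (hn : 2 * k + 2 ≤ finrank K V) (c : ℝ) (hc : 0 ≤ c) :
    (A.ncard : ℝ) + c * B.ncard ≤ max ((∑ j ∈ range (2 * k + 1), (NS K V j : ℝ)) + c)
      ((1 + c) * ∑ j ∈ range (k + 1), (NS K V j : ℝ)) := by
  have h0 : Finite (Submodule K V) := finSub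
  have hBA : (B.ncard : ℝ) ≤ A.ncard := by
    exact_mod_cast Set.ncard_le_ncard h.sub (Set.toFinite _)
  by_cases hF : ∃ F ∈ B, k + 1 ≤ finrank K F
  · refine le_trans ?_ (le_max_right _ _)
    obtain ⟨F, hFB, hFd⟩ := exists_below B h.dB (k + 1) hF
    have hk : 1 ≤ k := by
      have := h.leA F (h.sub hFB)
      omega
    have h1 := big_count F (2 * k) (k + 1) (by omega) (by omega)
    have h2 := loss A F (2 * k) k (fun C hC => h.cr C hC F hFB) (by omega) (by omega)
    rw [hFd] at h1 h2
    have h3 := ineq_E K (finrank K V) k hk hn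
    have e1 : 2 * k - (k + 1) = k - 1 := by omega
    rw [e1] at h1
    have h4 := ncard_split A (k + 1) (by omega)
    have h5 : (({U : Submodule K V | U ∈ A ∧ k + 1 ≤ finrank K U}).ncard : ℝ) ≤
        (({C : Submodule K V | k + 1 ≤ finrank K C ∧
          finrank K (C ⊔ F : Submodule K V) ≤ 2 * k}).ncard : ℝ) := by
      have : ({U : Submodule K V | U ∈ A ∧ k + 1 ≤ finrank K U}).ncard ≤
        ({C : Submodule K V | k + 1 ≤ finrank K C ∧
          finrank K (C ⊔ F : Submodule K V) ≤ 2 * k}).ncard := by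
        apply Set.ncard_le_ncard _ (Set.toFinite _)
        intro U hU
        exact ⟨hU.2, h.cr U hU.1 F hFB⟩
      exact_mod_cast this
    have h6 : ∑ j ∈ range k, (cnt A j : ℝ) ≤ ∑ j ∈ range k, (NS K V j : ℝ) :=
      Finset.sum_le_sum fun j _ => cntR_le A j
    rw [Finset.sum_range_succ] at h4 ⊢
    have h7 : (A.ncard : ℝ) ≤ ∑ j ∈ range k, (NS K V j : ℝ) + NS K V k := by linarith
    nlinarith
  · push Not at hF
    have hr := h.hr
    have h1 := ncard_range A (2 * k) (by omega) h.leA
    have h2 := ncard_range B k (by omega) (fun U hU => by have := hF U hU; omega)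
    have h3 := h.lpv k le_rfl c hc
    rw [split_even] at h1
    rw [Finset.sum_range_succ'] at h2
    rw [Finset.sum_add_distrib, ← Finset.mul_sum] at h3
    have h4 : ∑ j ∈ range k, (cnt A (j + 1) : ℝ) ≤ ∑ j ∈ range k, (NS K V (j + 1) : ℝ) :=
      Finset.sum_le_sum fun j _ => cntR_le A _
    have h5 : (cnt A 0 : ℝ) ≤ 1 := by
      have := cntR_le A 0
      rwa [NS_zero, Nat.cast_one] at this
    have h6 : (cnt B 0 : ℝ) ≤ 1 := by
      have := cntR_le B 0
      rwa [NS_zero, Nat.cast_one] at this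
    have e1 : ∑ j ∈ range (2 * k + 1), (NS K V j : ℝ) = 1 +
        ∑ j ∈ range k, (NS K V (j + 1) : ℝ) + ∑ j ∈ range k, (NS K V (2 * k - j) : ℝ) := by
      rw [split_even, NS_zero, Nat.cast_one]
    have e2 : ∑ j ∈ range (k + 1), (NS K V j : ℝ) =
        ∑ j ∈ range k, (NS K V (j + 1) : ℝ) + 1 := by
      rw [Finset.sum_range_succ', NS_zero, Nat.cast_one]
    rw [e1, e2]
    have h7 : c * (cnt B 0 : ℝ) ≤ c * 1 := mul_le_mul_of_nonneg_left h6 hc
    rcases le_total (∑ j ∈ range k, (NS K V (2 * k - j) : ℝ))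
      (c * ∑ j ∈ range k, (NS K V (j + 1) : ℝ)) with h8 | h8
    · rw [max_eq_right h8] at h3
      refine le_trans ?_ (le_max_right _ _)
      rw [h1, h2]
      nlinarith
    · rw [max_eq_left h8] at h3
      refine le_trans ?_ (le_max_left _ _)
      rw [h1, h2]
      nlinarith

end Pool.Agent.P8H99.CT
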