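import Pool.Agent.V11152.CSg

/-!
# Project CT: the statement of the cross-intersection lemma in one layer
-/

set_option autoImplicit false

open Module Finset Pool.Agent.V11152.CS

namespace Pool.Agent.P8H99.CT

/-- Two cross-intersecting families `B ⊆ A` of `k`-dimensional subspaces of an `n`-dimensional
space, `2 k ≤ n` (Erdős–Ko–Rado for vector spaces, weighted form). -/
def S_E : Prop := ∀ (K V : Type) [Field K] [Finite K] [AddCommGroup V] [Module K V]
    [Module.Finite K V] (k : ℕ), 1 ≤ k → 2 * k ≤ finrank K V →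
    ∀ A B : Set (Submodule K V), B ⊆ A → (∀ U ∈ A, finrank K U = k) →
      (∀ U ∈ A, ∀ W ∈ B, U ⊓ W ≠ ⊥) →
      ((Nat.card K : ℝ) ^ k - 1) * A.ncard +
        ((Nat.card K : ℝ) ^ (finrank K V) - (Nat.card K : ℝ) ^ k) * B.ncard ≤
      ((Nat.card K : ℝ) ^ k - 1) * NS K V k

end Pool.Agent.P8H99.CT
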