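import Pool.Agent.P8H99.CT.Lp
import Pool.Agent.P8H99.CT.Stm

/-!
# The bound for odd `r`
-/

set_option autoImplicit false

open Module Finset Pool.Agent.V11152.CS

namespace Pool.Agent.P8H99.CT

variable {K V : Type} [Field K] [Finite K] [AddCommGroup V] [Module K V] [Module.Finite K V]
  {A B : Set (Submodule K V)} {r : ℕ}

/-- the middle layer -/
lemma middle (p s N a b c : ℝ) (hp : 0 < p) (hs : 0 < s) (h : p * a + s * b ≤ p * N)
    (hb : 0 ≤ b) (hba : b ≤ a) :
    (c * p ≤ s → a + c * b ≤ N) ∧
      (s ≤ c * p → a + c * b ≤ (1 + c) * (N * p / (p + s))) := by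
  have hps : 0 < p + s := by linarith
  refine ⟨fun h1 => ?_, fun h1 => ?_⟩
  · have h3 : c * p * b ≤ s * b := mul_le_mul_of_nonneg_right h1 hb
    have h2 : p * (a + c * b) ≤ p * N := by linarith
    exact le_of_mul_le_mul_left h2 hp
  · have h0 : p * b ≤ p * a := mul_le_mul_of_nonneg_left hba hp.le
    have h2 : (p + s) * b ≤ p * N := by linarith
    have h3 : b ≤ N * p / (p + s) := by
      rw [le_div_iff₀ hps]
      linarith
    have h4 : (p + s) * (N * p / (p + s)) = N * p := by
      field_simp
    set α := N * p / (p + s) with hα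
    have h5 : p * (a + c * b) ≤ p * ((1 + c) * α) := by
      have h6 : (c * p - s) * b ≤ (c * p - s) * α :=
        mul_le_mul_of_nonneg_left h3 (by linarith)
      nlinarith
    exact le_of_mul_le_mul_left h5 hp

lemma lower_sum (A : Set (Submodule K V)) (k : ℕ) (hk : 1 ≤ k) (z : ℝ)
    (hz : (cnt A (k - 1) : ℝ) + z ≤ NS K V (k - 1)) :
    ∑ j ∈ range k, (cnt A j : ℝ) + z ≤ ∑ j ∈ range k, (NS K V j : ℝ) := by
  obtain ⟨i, rfl⟩ : ∃ i, k = i + 1 := ⟨k - 1, by omega⟩
  rw [Nat.add_sub_cancel] at hz
  rw [Finset.sum_range_succ, Finset.sum_range_succ]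
  have h6 : ∑ j ∈ range i, (cnt A j : ℝ) ≤ ∑ j ∈ range i, (NS K V j : ℝ) :=
    Finset.sum_le_sum fun j _ => cntR_le A j
  linarith

/-- the bound for odd `r` -/
theorem Pr.odd (hE : S_E) {k : ℕ} (hk : 1 ≤ k) (h : Pr A B (2 * k - 1))
    (hn : 2 * k + 1 ≤ finrank K V) (c : ℝ) (hc : 1 ≤ c) :
    (A.ncard : ℝ) + c * B.ncard ≤ max ((∑ j ∈ range (2 * k), (NS K V j : ℝ)) + c)
      (max ((1 + c) * ∑ j ∈ range k, (NS K V j : ℝ) + NS K V k)
        ((1 + c) * (∑ j ∈ range k, (NS K V j : ℝ) +
          NS K V k * (Q K ^ k - 1) / (Q K ^ (finrank K V) - 1)))) := by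
  have h0 : Finite (Submodule K V) := finSub
  have hq := Q_two K
  have hr := h.hr
  obtain ⟨n, hnn⟩ : ∃ n, n = finrank K V := ⟨_, rfl⟩
  have hp : 0 < Q K ^ k - 1 := sub_pos.2 (one_lt_pow₀ (by linarith) (by omega))
  have hs : 0 < Q K ^ n - Q K ^ k := sub_pos.2 (pow_lt_pow_right₀ (by linarith) (by omega))
  -- the middle layer
  have hmid := hE K V k hk (by omega) {U | U ∈ A ∧ finrank K U = k} {U | U ∈ B ∧ finrank K U = k}
    (fun U hU => ⟨h.sub hU.1, hU.2⟩) (fun U hU => hU.2) (by
      intro U hU W hW hdis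
      have h3 := Submodule.finrank_sup_add_finrank_inf_eq U W
      rw [hdis, finrank_bot, hU.2, hW.2] at h3
      have h4 := h.cr U hU.1 W hW.1
      omega)
  have hmid' : (Q K ^ k - 1) * (cnt A k : ℝ) + (Q K ^ n - Q K ^ k) * (cnt B k : ℝ) ≤
      (Q K ^ k - 1) * NS K V k := by
    rw [hnn]
    exact hmid
  have hba : (cnt B k : ℝ) ≤ cnt A k := by exact_mod_cast cnt_mono h.sub k
  obtain ⟨hm1, hm2⟩ := middle (Q K ^ k - 1) (Q K ^ n - Q K ^ k) (NS K V k) (cnt A k) (cnt B k) c
    hp hs hmid' (Nat.cast_nonneg _) hba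
  have hden : Q K ^ k - 1 + (Q K ^ n - Q K ^ k) = Q K ^ n - 1 := by ring
  rw [hden] at hm2
  rw [← hnn]
  set L := ∑ j ∈ range k, (NS K V j : ℝ) with hL
  set α := (NS K V k : ℝ) * (Q K ^ k - 1) / (Q K ^ n - 1) with hα
  -- the two upper bounds follow from a bound through the middle layer
  have hfin : (A.ncard : ℝ) + c * B.ncard ≤ (1 + c) * L + ((cnt A k : ℝ) + c * cnt B k) →
      (A.ncard : ℝ) + c * B.ncard ≤ max ((∑ j ∈ range (2 * k), (NS K V j : ℝ)) + c)
        (max ((1 + c) * L + NS K V k) ((1 + c) * (L + α))) := by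
    intro h1
    rcases le_total (c * (Q K ^ k - 1)) (Q K ^ n - Q K ^ k) with h2 | h2
    · refine le_trans ?_ (le_trans (le_max_left _ _) (le_max_right _ _))
      have := hm1 h2
      linarith
    · refine le_trans ?_ (le_trans (le_max_right _ _) (le_max_right _ _))
      have := hm2 h2
      linarith
  by_cases hF : ∃ F ∈ B, k + 1 ≤ finrank K F
  · -- a member of `B` of dimension `k + 1`
    apply hfin
    obtain ⟨F, hFB, hFd⟩ := exists_below B h.dB (k + 1) hF
    have hk2 : 2 ≤ k := by
      have := h.leA F (h.sub hFB)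
      omega
    have h1 := big_count F (2 * k - 1) (k + 1) (by omega) (by omega)
    have h2 := loss A F (2 * k - 1) (k - 1) (fun C hC => h.cr C hC F hFB) (by omega) (by omega)
    have h2' := loss B F (2 * k - 1) (k - 1) (fun C hC => h.cr C (h.sub hC) F hFB) (by omega)
      (by omega)
    rw [hFd] at h1 h2 h2'
    have h3 := ineq_O K (finrank K V) k hk2 hn
    have e1 : 2 * k - 1 - (k + 1) = k - 2 := by omega
    rw [e1] at h1
    have key : ∀ X : Set (Submodule K V), X ⊆ A →
        (cnt X (k - 1) : ℝ) + Q K ^ ((k + 1) * (k - 1)) * G K (finrank K V - (k + 1)) (k - 1) ≤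
          NS K V (k - 1) → (X.ncard : ℝ) ≤ L + cnt X k := by
      intro X hXA h2
      have h4 := ncard_split X (k + 1) (by omega)
      have h5 : (({U : Submodule K V | U ∈ X ∧ k + 1 ≤ finrank K U}).ncard : ℝ) ≤
          (({C : Submodule K V | k + 1 ≤ finrank K C ∧
            finrank K (C ⊔ F : Submodule K V) ≤ 2 * k - 1}).ncard : ℝ) := by
        have : ({U : Submodule K V | U ∈ X ∧ k + 1 ≤ finrank K U}).ncard ≤
          ({C : Submodule K V | k + 1 ≤ finrank K C ∧
            finrank K (C ⊔ F : Submodule K V) ≤ 2 * k - 1}).ncard := by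
          apply Set.ncard_le_ncard _ (Set.toFinite _)
          intro U hU
          exact ⟨hU.2, h.cr U (hXA hU.1) F hFB⟩
        exact_mod_cast this
      have h6 := lower_sum X k (by omega) _ h2
      rw [Finset.sum_range_succ] at h4
      linarith
    have h7 := key A subset_rfl h2
    have h8 := key B h.sub h2'
    nlinarith
  · push Not at hF
    have h2 := ncard_range B k (by omega) (fun U hU => by have := hF U hU; omega)
    rw [Finset.sum_range_succ] at h2
    have hBs : ∑ j ∈ range k, (cnt B j : ℝ) ≤ L := Finset.sum_le_sum fun j _ => cntR_le B j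
    have hAs : ∑ j ∈ range k, (cnt A j : ℝ) ≤ L := Finset.sum_le_sum fun j _ => cntR_le A j
    by_cases hcase : (cnt A k : ℝ) + c * cnt B k ≤ NS K V k
    · -- linear programming
      obtain ⟨i, rfl⟩ : ∃ i, k = i + 1 := ⟨k - 1, by omega⟩
      have e0 : 2 * (i + 1) - 1 = 2 * i + 1 := by omega
      have h1 := ncard_range A (2 * i + 1) (by omega) (by
        intro U hU
        have := h.leA U hU
        omega)
      have h3 := h.lpv i (by omega) c (by linarith)
      rw [e0] at h3
      rw [show 2 * i + 1 + 1 = 2 * i + 2 by ring, split_odd] at h1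
      rw [Finset.sum_range_succ'] at h2
      rw [Finset.sum_add_distrib, ← Finset.mul_sum] at h3
      have h4 : ∑ j ∈ range i, (cnt A (j + 1) : ℝ) ≤ ∑ j ∈ range i, (NS K V (j + 1) : ℝ) :=
        Finset.sum_le_sum fun j _ => cntR_le A _
      have h5 : (cnt A 0 : ℝ) ≤ 1 := by
        have := cntR_le A 0
        rwa [NS_zero, Nat.cast_one] at this
      have h6 : (cnt B 0 : ℝ) ≤ 1 := by
        have := cntR_le B 0
        rwa [NS_zero, Nat.cast_one] at this
      have e1 : ∑ j ∈ range (2 * (i + 1)), (NS K V j : ℝ) = 1 +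
          ∑ j ∈ range i, (NS K V (j + 1) : ℝ) + NS K V (i + 1) +
            ∑ j ∈ range i, (NS K V (2 * i + 1 - j) : ℝ) := by
        rw [show 2 * (i + 1) = 2 * i + 2 by ring, split_odd, NS_zero, Nat.cast_one]
      have e2 : L = ∑ j ∈ range i, (NS K V (j + 1) : ℝ) + 1 := by
        rw [hL, Finset.sum_range_succ', NS_zero, Nat.cast_one]
      have h7 : c * (cnt B 0 : ℝ) ≤ c * 1 := mul_le_mul_of_nonneg_left h6 (by linarith)
      rcases le_total (∑ j ∈ range i, (NS K V (2 * i + 1 - j) : ℝ))
        (c * ∑ j ∈ range i, (NS K V (j + 1) : ℝ)) with h8 | h8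
      · rw [max_eq_right h8] at h3
        refine le_trans ?_ (le_trans (le_max_left _ _) (le_max_right _ _))
        rw [h1, h2, e2]
        nlinarith
      · rw [max_eq_left h8] at h3
        refine le_trans ?_ (le_max_left _ _)
        rw [h1, h2, e1]
        nlinarith
    · -- now `c` is large and `B` has a member of dimension `k`
      apply hfin
      have hcs : Q K ^ n - Q K ^ k < c * (Q K ^ k - 1) := by
        by_contra hcon
        exact hcase (hm1 (by linarith))
      have hbk : 0 < cnt B k := by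
        by_contra hcon
        have h3 : cnt B k = 0 := by omega
        apply hcase
        rw [h3, Nat.cast_zero, mul_zero, add_zero]
        exact cntR_le A k
      by_cases hA1 : ∃ C ∈ A, k + 1 ≤ finrank K C
      · obtain ⟨C, hCA, hCd⟩ := exists_below A h.dA (k + 1) hA1
        have hk2 : 2 ≤ k := by
          have := h.leA C hCA
          omega
        obtain ⟨F, hFB, hFd⟩ : ∃ F ∈ B, finrank K F = k := by
          unfold cnt at hbk
          rw [Set.ncard_pos (Set.toFinite _)] at hbk
          obtain ⟨F, hF1, hF2⟩ := hbk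
          exact ⟨F, hF1, hF2⟩
        have h1 := big_count F (2 * k - 1) (k + 1) (by omega) (by omega)
        have h2' := loss B C (2 * k - 1) (k - 1) (fun D hD => by
          rw [sup_comm]; exact h.cr C hCA D hD) (by omega) (by omega)
        rw [hFd] at h1
        rw [hCd] at h2'
        have h3 := ineq_O2 K (finrank K V) k hk2 hn
        have e1 : 2 * k - 1 - k = k - 1 := by omega
        rw [e1] at h1
        have h4 := ncard_split A (k + 1) (by omega)
        have h5 : (({U : Submodule K V | U ∈ A ∧ k + 1 ≤ finrank K U}).ncard : ℝ) ≤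
            (({C : Submodule K V | k + 1 ≤ finrank K C ∧
              finrank K (C ⊔ F : Submodule K V) ≤ 2 * k - 1}).ncard : ℝ) := by
          have : ({U : Submodule K V | U ∈ A ∧ k + 1 ≤ finrank K U}).ncard ≤
            ({C : Submodule K V | k + 1 ≤ finrank K C ∧
              finrank K (C ⊔ F : Submodule K V) ≤ 2 * k - 1}).ncard := by
            apply Set.ncard_le_ncard _ (Set.toFinite _)
            intro U hU
            exact ⟨hU.2, h.cr U hU.1 F hFB⟩
          exact_mod_cast this
        rw [Finset.sum_range_succ] at h4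
        have h6 := lower_sum B k (by omega) _ h2'
        rw [← hL, ← hnn] at h6
        rw [← hnn] at h3 h1
        set z := Q K ^ ((k + 1) * (k - 1)) * G K (n - (k + 1)) (k - 1) with hz
        have hz0 : 0 ≤ z := mul_nonneg (by positivity) (G_nonneg K _ _)
        -- `q ^ (n - k) ≤ c`
        have h7 : Q K ^ (n - k) ≤ c := by
          have e2 : Q K ^ n = Q K ^ k * Q K ^ (n - k) := by
            rw [← pow_add]; congr 1; omega
          have h8 : Q K ^ k ≤ Q K ^ (n - k) := pow_le_pow_right₀ (by linarith) (by omega)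
          by_contra hcon
          push Not at hcon
          have h9 : c * (Q K ^ k - 1) ≤ Q K ^ (n - k) * (Q K ^ k - 1) :=
            mul_le_mul_of_nonneg_right hcon.le hp.le
          have h11 : Q K ^ (n - k) * (Q K ^ k - 1) = Q K ^ n - Q K ^ (n - k) := by
            rw [e2]; ring
          linarith
        have h8 : Q K ^ (n - k) * z ≤ c * z := mul_le_mul_of_nonneg_right h7 hz0
        have h9 : (A.ncard : ℝ) ≤ L + cnt A k + c * z := by linarith
        have h10 : c * (B.ncard : ℝ) ≤ c * (L - z + cnt B k) := by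
          apply mul_le_mul_of_nonneg_left _ (by linarith)
          linarith
        linarith
      · push Not at hA1
        have h1 := ncard_range A k (by omega) (fun U hU => by have := hA1 U hU; omega)
        rw [Finset.sum_range_succ] at h1
        have h10 : c * (B.ncard : ℝ) ≤ c * (L + cnt B k) := by
          apply mul_le_mul_of_nonneg_left _ (by linarith)
          linarith
        linarith

end Pool.Agent.P8H99.CT
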