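import Pool.Agent.P8H99.CT.Odd

/-!
# Reduction to two families, duality
-/

set_option autoImplicit false

open Module Finset Pool.Agent.V11152.CS

namespace Pool.Agent.P8H99.CT

variable {K V : Type} [Field K] [Finite K] [AddCommGroup V] [Module K V] [Module.Finite K V]

open Classical in
lemma ncard_ind [Fintype (Submodule K V)] (A : Set (Submodule K V)) :
    (A.ncard : ℝ) = ∑ X : Submodule K V, if X ∈ A then (1 : ℝ) else 0 := by
  rw [Finset.sum_ite, Finset.sum_const_zero, add_zero, Finset.sum_const, nsmul_eq_mul, mul_one,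
    Set.ncard_eq_toFinset_card']
  congr 2
  ext X
  simp

/-- reduction to two families -/
theorem red {m r : ℕ} (hm : 2 ≤ m) (hr : r + 1 ≤ finrank K V) (F : Fin m → Set (Submodule K V))
    (hne : ∀ i, (F i).Nonempty)
    (hF : ∀ i j, i ≠ j → ∀ U ∈ F i, ∀ W ∈ F j, finrank K (U ⊔ W : Submodule K V) ≤ r) :
    ∃ A B : Set (Submodule K V), Pr A B r ∧
      ∑ i, ((F i).ncard : ℝ) ≤ A.ncard + ((m : ℝ) - 1) * B.ncard := by
  classical
  have : Finite (Submodule K V) := finSub
  have : Fintype (Submodule K V) := Fintype.ofFinite _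
  obtain ⟨s, rfl⟩ : ∃ s, m = s + 2 := ⟨m - 2, by omega⟩
  have hother : ∀ i : Fin (s + 2), ∃ j, j ≠ i := fun i => exists_ne i
  set A : Set (Submodule K V) := {X | ∃ i, ∃ U ∈ F i, X ≤ U} with hA
  set B : Set (Submodule K V) := {X | X ∈ A ∧ ∀ Y ∈ A, finrank K (X ⊔ Y : Submodule K V) ≤ r}
    with hB
  have hFA : ∀ i, F i ⊆ A := fun i U hU => ⟨i, U, hU, le_rfl⟩
  have hAr : ∀ Y ∈ A, finrank K Y ≤ r := by
    rintro Y ⟨i, U, hU, hYU⟩
    obtain ⟨j, hj⟩ := hother i
    obtain ⟨W, hW⟩ := hne j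
    have h1 := hF i j hj.symm U hU W hW
    exact (Submodule.finrank_mono (hYU.trans le_sup_left)).trans h1
  have hP : Pr A B r := by
    refine ⟨fun X hX => hX.1, ?_, ?_, ?_, ?_, hr⟩
    · rintro U ⟨i, U', hU', hUU'⟩ W hWU
      exact ⟨i, U', hU', hWU.trans hUU'⟩
    · rintro U ⟨⟨i, U', hU', hUU'⟩, h2⟩ W hWU
      refine ⟨⟨i, U', hU', hWU.trans hUU'⟩, ?_⟩
      intro Y hY
      exact (Submodule.finrank_mono (sup_le_sup_right hWU Y)).trans (h2 Y hY)
    · obtain ⟨U, hU⟩ := hne 0
      refine ⟨⟨0, U, hU, bot_le⟩, ?_⟩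
      intro Y hY
      rw [bot_sup_eq]
      exact hAr Y hY
    · intro U hU W hW
      rw [sup_comm]
      exact hW.2 U hU
  refine ⟨A, B, hP, ?_⟩
  have h1 : ∑ i, ((F i).ncard : ℝ) =
      ∑ X : Submodule K V, ∑ i, if X ∈ F i then (1 : ℝ) else 0 := by
    rw [Finset.sum_comm]
    exact Finset.sum_congr rfl fun i _ => ncard_ind (F i)
  rw [h1, ncard_ind A, ncard_ind B, Finset.mul_sum, ← Finset.sum_add_distrib]
  apply Finset.sum_le_sum
  intro X _
  by_cases hXB : X ∈ B
  · rw [if_pos hXB, if_pos hXB.1]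
    have h2 : ∑ i : Fin (s + 2), (if X ∈ F i then (1 : ℝ) else 0) ≤ ∑ _i : Fin (s + 2), (1 : ℝ) := by
      apply Finset.sum_le_sum
      intro i _
      split_ifs <;> norm_num
    rw [Finset.sum_const, card_univ, Fintype.card_fin, nsmul_eq_mul, mul_one] at h2
    linarith
  · rw [if_neg hXB, mul_zero, add_zero]
    by_cases hex : ∃ i, X ∈ F i
    · obtain ⟨i, hi⟩ := hex
      have hXA : X ∈ A := hFA i hi
      rw [if_pos hXA, Finset.sum_eq_single i]
      · rw [if_pos hi]
      · intro j _ hji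
        rw [if_neg]
        intro hj
        apply hXB
        refine ⟨hXA, ?_⟩
        rintro Y ⟨l, U, hU, hYU⟩
        have h3 : finrank K (X ⊔ U : Submodule K V) ≤ r := by
          by_cases hl : l = i
          · subst hl
            exact hF j l hji X hj U hU
          · exact hF i l (Ne.symm hl) X hi U hU
        exact (Submodule.finrank_mono (sup_le_sup_left hYU X)).trans h3
      · intro h; exact absurd (mem_univ i) h
    · push Not at hex
      have h2 : ∑ i : Fin (s + 2), (if X ∈ F i then (1 : ℝ) else 0) = 0 := by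
        apply Finset.sum_eq_zero
        intro i _
        rw [if_neg (hex i)]
      rw [h2]
      split_ifs <;> norm_num

/-- duality -/
theorem dual {m t : ℕ} (F : Fin m → Set (Submodule K V))
    (hne : ∀ i, (F i).Nonempty)
    (hF : ∀ i j, i ≠ j → ∀ U ∈ F i, ∀ W ∈ F j, t ≤ finrank K (U ⊓ W : Submodule K V)) :
    ∃ F' : Fin m → Set (Submodule K V), (∀ i, (F' i).Nonempty) ∧
      (∀ i j, i ≠ j → ∀ U ∈ F' i, ∀ W ∈ F' j,
        finrank K (U ⊔ W : Submodule K V) ≤ finrank K V - t) ∧
      ∀ i, (F' i).ncard = (F i).ncard := by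
  have e : V ≃ₗ[K] Dual K V := LinearEquiv.ofFinrankEq _ _ (Subspace.dual_finrank_eq).symm
  set f : Submodule K V → Submodule K V :=
    fun U => (U.dualAnnihilator).map (e.symm : Dual K V →ₗ[K] V) with hf
  have hinj : Function.Injective f := by
    intro U W hUW
    have h2 : U.dualAnnihilator = W.dualAnnihilator := by
      apply Submodule.map_injective_of_injective e.symm.injective
      exact hUW
    exact Subspace.dualAnnihilator_inj.mp h2
  refine ⟨fun i => f '' (F i), fun i => (hne i).image f, ?_, fun i => ?_⟩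
  · rintro i j hij _ ⟨U, hU, rfl⟩ _ ⟨W, hW, rfl⟩
    have h1 := hF i j hij U hU W hW
    have h2 : f U ⊔ f W = f (U ⊓ W) := by
      show (U.dualAnnihilator).map (e.symm : Dual K V →ₗ[K] V) ⊔
        (W.dualAnnihilator).map (e.symm : Dual K V →ₗ[K] V) =
        ((U ⊓ W).dualAnnihilator).map (e.symm : Dual K V →ₗ[K] V)
      rw [← Submodule.map_sup, Subspace.dualAnnihilator_inf_eq]
    rw [h2]
    have h3 : finrank K (f (U ⊓ W)) = finrank K (U ⊓ W).dualAnnihilator :=
      LinearEquiv.finrank_map_eq e.symm _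
    have h4 := Subspace.finrank_add_finrank_dualAnnihilator_eq (U ⊓ W)
    omega
  · exact Set.ncard_image_of_injective _ hinj

end Pool.Agent.P8H99.CT
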